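import Pool.Agent.BOC.Defs
import Pool.Agent.SKF.Sol

/-!
Grg (size 3): Gram decomposition of `GG w z` inside the span of the vectors `XX w z c`.
`grg`: `Psd.gram` gives `LM w z k l = ∑ i, f i k * conj (f i l)`. Fix `i` and put `ρ l = conj (f i l)`. Apply `sol`
with `F = LM w z`: if `hf F a c = 0` for all `a`, take `a = c`: `0 = hf F c c = ∑ j, |∑ k, c k * f j k|²`, so
`∑ k, c k * f i k = 0` and its conjugate is the hypothesis of `sol`. So there is `β` with
`∑ k, ∑ l, β k * conj (b l) * F k l = ∑ l, conj (b l) * conj (f i l)` for all `b`; `b = e l`: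
`∑ k, β k * F k l = conj (f i l)`, conjugate (`herm`): `f i l = ∑ k, F l k * conj (β k)`, hence
`XX w z β l = sg l * f i l.swap`. With `c i = β`: `GG w z p q = sg p * sg q * ∑ i, f i p.swap * conj (f i q.swap)`.
`xx_span`: `XX w z b p = ∑ q, GG w z p q * (sg q * conj (b q.swap))` (`sum_swap`, `sg_sq`), insert the Gram form.
-/

open scoped ContDiff ComplexConjugate Topology
open Complex

namespace Pool.Agent.BOC

open Pool.Agent.DTW Pool.Agent.SKF

variable {n : ℕ} {w : E n → ℝ} {z : E n}

private theorem grg_hf {m : ℕ} {F : Ix n → Ix n → ℂ} {f : Fin m → Ix n → ℂ}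
    (hF : ∀ k l, F k l = ∑ p, f p k * conj (f p l)) (c : E n) :
    hf F c c = ∑ j, ((Complex.normSq (∑ k, c k * f j k) : ℝ) : ℂ) := by
  have h1 : ∀ j, ((Complex.normSq (∑ k, c k * f j k) : ℝ) : ℂ)
      = ∑ k, ∑ l, c k * conj (c l) * (f j k * conj (f j l)) := by
    intro j
    rw [← Complex.mul_conj, map_sum, Finset.sum_mul_sum]
    refine Finset.sum_congr rfl fun k _ => Finset.sum_congr rfl fun l _ => ?_
    rw [map_mul]
    ring
  have h2 : ∀ k l, c k * conj (c l) * F k l
      = ∑ j, c k * conj (c l) * (f j k * conj (f j l)) := by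
    intro k l
    rw [hF, Finset.mul_sum]
  unfold hf
  calc ∑ k, ∑ l, c k * conj (c l) * F k l
      = ∑ k, ∑ j, ∑ l, c k * conj (c l) * (f j k * conj (f j l)) := by
        refine Finset.sum_congr rfl fun k _ => ?_
        rw [Finset.sum_comm]
        exact Finset.sum_congr rfl fun l _ => h2 k l
    _ = ∑ j, ∑ k, ∑ l, c k * conj (c l) * (f j k * conj (f j l)) := Finset.sum_comm
    _ = ∑ j, ((Complex.normSq (∑ k, c k * f j k) : ℝ) : ℂ) :=
        Finset.sum_congr rfl fun j _ => (h1 j).symm

private theorem grg_van {m : ℕ} {F : Ix n → Ix n → ℂ} {f : Fin m → Ix n → ℂ}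
    (hF : ∀ k l, F k l = ∑ p, f p k * conj (f p l)) (c : E n) (h : hf F c c = 0) (i : Fin m) :
    ∑ k, c k * f i k = 0 := by
  rw [grg_hf hF] at h
  have h2 : ∑ j, Complex.normSq (∑ k, c k * f j k) = 0 := by exact_mod_cast h
  have h3 := (Finset.sum_eq_zero_iff_of_nonneg
    (fun j _ => Complex.normSq_nonneg (∑ k, c k * f j k))).1 h2 i (Finset.mem_univ i)
  exact Complex.normSq_eq_zero.1 h3

private theorem grg_one (hP : Psd (LM w z)) {m : ℕ} {f : Fin m → Ix n → ℂ}
    (hF : ∀ k l, LM w z k l = ∑ p, f p k * conj (f p l)) (i : Fin m) :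
    ∃ β : E n, ∀ p, XX w z β p = sg p * f i p.swap := by
  obtain ⟨β, hβ⟩ := sol (LM w z) (fun l => conj (f i l)) (by
    intro c hc
    have h1 := grg_van hF c (hc c) i
    have h2 := congrArg conj h1
    rw [map_sum, map_zero] at h2
    rw [← h2]
    exact Finset.sum_congr rfl fun k _ => (map_mul conj _ _).symm)
  have h3 : ∀ l, ∑ k, β k * LM w z k l = conj (f i l) := by
    intro l
    have h4 := hβ (e l)
    have h5 : hf (LM w z) β (e l) = ∑ k, β k * LM w z k l := by
      unfold hf
      refine Finset.sum_congr rfl fun k _ => ?_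
      rw [Finset.sum_eq_single l]
      · simp [e]
      · intro j _ hj
        simp [e, hj]
      · intro h
        exact absurd (Finset.mem_univ l) h
    have h6 : ∑ j, conj ((e l : E n) j) * conj (f i j) = conj (f i l) := by
      rw [Finset.sum_eq_single l]
      · simp [e]
      · intro j _ hj
        simp [e, hj]
      · intro h
        exact absurd (Finset.mem_univ l) h
    rw [← h5, h4, h6]
  have h7 : ∀ l, ∑ k, LM w z l k * conj (β k) = f i l := by
    intro l
    have h8 := congrArg conj (h3 l)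
    rw [map_sum, Complex.conj_conj] at h8
    rw [← h8]
    refine Finset.sum_congr rfl fun k _ => ?_
    rw [map_mul, hP.herm]
    ring
  refine ⟨β, fun p => ?_⟩
  unfold XX
  rw [h7]

theorem grg (hP : Psd (LM w z)) : ∃ (r : ℕ) (c : Fin r → E n), ∀ p q,
    GG w z p q = ∑ i, XX w z (c i) p * conj (XX w z (c i) q) := by
  obtain ⟨m, f, hF⟩ := hP.gram
  choose β hβ using fun i => grg_one hP hF i
  refine ⟨m, β, fun p q => ?_⟩
  unfold GG
  rw [hF, Finset.mul_sum]
  refine Finset.sum_congr rfl fun i _ => ?_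
  rw [hβ, hβ, map_mul, conj_sg]
  ring

theorem xx_GG (b : E n) (p : Ix n) :
    XX w z b p = ∑ q, GG w z p q * (sg q * conj (b q.swap)) := by
  unfold XX GG
  rw [← sum_swap, Finset.mul_sum]
  refine Finset.sum_congr rfl fun q _ => ?_
  have h1 := sg_sq q
  linear_combination (-(sg p * LM w z p.swap q.swap * conj (b q.swap))) * h1

theorem xx_span {r : ℕ} {x : Fin r → E n} (hG : ∀ p q, GG w z p q = ∑ i, x i p * conj (x i q))
    (b : E n) : ∃ t : Fin r → ℂ, XX w z b = ∑ i, t i • x i := by
  refine ⟨fun i => ∑ q, conj (x i q) * (sg q * conj (b q.swap)), ?_⟩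
  funext p
  rw [xx_GG, Finset.sum_apply]
  have h1 : ∀ q, GG w z p q * (sg q * conj (b q.swap))
      = ∑ i, conj (x i q) * (sg q * conj (b q.swap)) * x i p := by
    intro q
    rw [hG, Finset.sum_mul]
    exact Finset.sum_congr rfl fun i _ => by ring
  simp only [h1]
  rw [Finset.sum_comm]
  refine Finset.sum_congr rfl fun i _ => ?_
  rw [Pi.smul_apply, smul_eq_mul, Finset.sum_mul]

end Pool.Agent.BOC
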