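import Pool.Agent.BOC.Defs
import Pool.Agent.DTW.Base

/-!
Ten (size 3): algebra of tensors.
`ten_expand`: `u s = ∑ p, u s p • e p` (`vec_eq_sum`), `MultilinearMap.map_sum` (or `map_sum_finset`) and
`MultilinearMap.map_smul_univ`.
`hh_gram`: insert `hG` in `∏ s, G (I s) (J s)` and expand with `Finset.prod_univ_sum`
(`∏ s, ∑ i, f s i = ∑ R ∈ piFinset .., ∏ s, f s (R s)`, `Fintype.piFinset_univ`); exchange the sums;
for fixed `R` the double sum over `I`, `J` is
`(∑ I, ∏ s, x (R s) (I s) * a (e ∘ I)) * conj (∑ J, ∏ s, x (R s) (J s) * a (e ∘ J))`, which is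
`normSq (a (x ∘ R))` by `ten_expand` and `Complex.mul_conj`.
-/

open scoped ContDiff ComplexConjugate Topology
open Complex

namespace Pool.Agent.BOC

open Pool.Agent.DTW Pool.Agent.SKF

variable {n k : ℕ}

theorem ten_expand (a : Tk n k) (u : Fin k → E n) :
    a u = ∑ I : Fin k → Ix n, (∏ s, u s (I s)) * a (fun s => e (I s)) := by
  have h1 : u = fun s => ∑ p : Ix n, u s p • (e p : E n) := by
    funext s
    exact vec_eq_sum (u s)
  conv_lhs => rw [h1]
  rw [MultilinearMap.map_sum]
  refine Finset.sum_congr rfl fun I _ => ?_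
  rw [MultilinearMap.map_smul_univ, smul_eq_mul]

theorem hh_gram {κ : Type*} [Fintype κ] (G : Ix n → Ix n → ℂ) (x : κ → E n)
    (hG : ∀ p q, G p q = ∑ i, x i p * conj (x i q)) (a : Tk n k) :
    HH G a = ∑ R : Fin k → κ, ((Complex.normSq (a fun s => x (R s)) : ℝ) : ℂ) := by
  classical
  have h1 : ∀ I J : Fin k → Ix n, ∏ s, G (I s) (J s)
      = ∑ R : Fin k → κ, ∏ s, (x (R s) (I s) * conj (x (R s) (J s))) := by
    intro I J
    simp only [hG]
    rw [Finset.prod_univ_sum, Fintype.piFinset_univ]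
  have h2 : ∀ R : Fin k → κ, ((Complex.normSq (a fun s => x (R s)) : ℝ) : ℂ)
      = ∑ I : Fin k → Ix n, ∑ J : Fin k → Ix n,
        (∏ s, (x (R s) (I s) * conj (x (R s) (J s)))) * a (fun s => e (I s))
          * conj (a fun s => e (J s)) := by
    intro R
    rw [← Complex.mul_conj, ten_expand a fun s => x (R s), map_sum, Finset.sum_mul_sum]
    refine Finset.sum_congr rfl fun I _ => Finset.sum_congr rfl fun J _ => ?_
    rw [Finset.prod_mul_distrib, map_mul, map_prod]
    ring
  have h3 : ∀ I J : Fin k → Ix n,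
      (∏ s, G (I s) (J s)) * a (fun s => e (I s)) * conj (a fun s => e (J s))
        = ∑ R : Fin k → κ, (∏ s, (x (R s) (I s) * conj (x (R s) (J s)))) * a (fun s => e (I s))
          * conj (a fun s => e (J s)) := by
    intro I J
    rw [h1, Finset.sum_mul, Finset.sum_mul]
  unfold HH
  calc ∑ I : Fin k → Ix n, ∑ J : Fin k → Ix n,
        (∏ s, G (I s) (J s)) * a (fun s => e (I s)) * conj (a fun s => e (J s))
      = ∑ I : Fin k → Ix n, ∑ R : Fin k → κ, ∑ J : Fin k → Ix n,
        (∏ s, (x (R s) (I s) * conj (x (R s) (J s)))) * a (fun s => e (I s))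
          * conj (a fun s => e (J s)) := by
        refine Finset.sum_congr rfl fun I _ => ?_
        rw [Finset.sum_comm]
        exact Finset.sum_congr rfl fun J _ => h3 I J
    _ = ∑ R : Fin k → κ, ∑ I : Fin k → Ix n, ∑ J : Fin k → Ix n,
        (∏ s, (x (R s) (I s) * conj (x (R s) (J s)))) * a (fun s => e (I s))
          * conj (a fun s => e (J s)) := Finset.sum_comm
    _ = ∑ R : Fin k → κ, ((Complex.normSq (a fun s => x (R s)) : ℝ) : ℂ) :=
        Finset.sum_congr rfl fun R _ => (h2 R).symm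

end Pool.Agent.BOC
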