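import Pool.Agent.BOC.Defs
import Pool.Agent.BOC.Ten
import Pool.Agent.BOC.Grg

/-!
Chn (size 4): the length function does not depend on the chart.
`ggc`: with `T p k = TT (ph A i j) z p k` (`TT_apply`: `fderiv ℂ (ph A i j) z a p = ∑ k, T p k * a k`),
`chg_wt`: `LM (wt i) z k l = ∑ p q, T p k * conj (T q l) * LM (wt j) (ph z) p q`, and `T` is symplectic
(`symp_TT`, `symp_matrix`: `M * J * Mᵀ = J`, i.e. `∑ k, T a k * sg k * T p k.swap = ± sg a * [p = a.swap]`; entries of
`J`: `J_apply`; see the proof of `QQ_symp` in DTW.Alg for the bookkeeping). So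
`∑ k l, T a k * conj (T b l) * GG (wt i) z k l = ∑ p q, (∑ k, T a k sg k T p k.swap) conj (∑ l, T b l sg l T q l.swap)
 LM (wt j) (ph z) p q = sg a sg b LM (wt j) (ph z) a.swap b.swap = GG (wt j) (ph z) a b`; insert the Gram form.
`nc_chart`: `z = A.c i x`; Gram form of `GG (wt i) z` (`grg`, `(L i).psd`), `x_l = XX ..`; `ggc` gives the Gram form
`T x_l` of `GG (wt j) (ph z)`; `hh_gram` for both; `trans` of `IsTensor`:
`α i x (x_R) = g^m * α j x (T x_R)`; `B.trans`: `w i x = w j x + 2 log ‖g‖`; the factors `‖g‖^(2m)` cancel exactly as in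
`len_chart` of DTW.Main. `ph_chart`, `(A.c i).left_inv`.
-/

open scoped ContDiff ComplexConjugate Topology
open Complex

namespace Pool.Agent.BOC

open Pool.Agent.DTW Pool.Agent.SKF

variable {n k : ℕ} {X : Type*} [TopologicalSpace X] {ι : Type*} {A : Atlas n X ι}


private theorem Chn_sym (A : Atlas n X ι) {i j : ι} {z : E n} (hz : z ∈ Uo A i j) (p r : Ix n) :
    ∑ a, sg a * TT (ph A i j) z p a * TT (ph A i j) z r a.swap = if r = p.swap then sg p else 0 := by
  have hM := symp_matrix (symp_TT A hz)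
  obtain ⟨T, hT⟩ : ∃ T : Ix n → Ix n → ℂ, T = TT (ph A i j) z := ⟨_, rfl⟩
  rw [← hT] at hM ⊢
  have h1 : Matrix.of T * Matrix.J (Fin n) ℂ * (Matrix.of T).transpose = Matrix.J (Fin n) ℂ :=
    SymplecticGroup.mem_iff.1 hM
  have h2 := congrFun (congrFun h1 p) r
  rw [Matrix.mul_apply, J_apply] at h2
  have h3 : ∀ b : Ix n, (Matrix.of T * Matrix.J (Fin n) ℂ) p b * (Matrix.of T).transpose b r
      = T p b.swap * sg b * T r b := by
    intro b
    rw [Matrix.mul_apply, Matrix.transpose_apply, Matrix.of_apply]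
    congr 1
    rw [Finset.sum_eq_single b.swap]
    · rw [J_apply, if_pos rfl, Matrix.of_apply]
    · intro a _ ha
      rw [J_apply, if_neg ha, mul_zero]
    · intro h
      exact absurd (Finset.mem_univ _) h
  rw [Finset.sum_congr rfl (fun b _ => h3 b), ← sum_swap] at h2
  have h4 : ∑ a, sg a * T p a * T r a.swap = -∑ k : Ix n, T p k.swap.swap * sg k.swap * T r k.swap := by
    rw [← Finset.sum_neg_distrib]
    refine Finset.sum_congr rfl (fun a _ => ?_)
    rw [Sum.swap_swap, sg_swap]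
    ring
  rw [h4, h2]
  by_cases h : p = r.swap
  · subst h
    rw [if_pos rfl, Sum.swap_swap, if_pos rfl, sg_swap]
  · rw [if_neg h, if_neg (fun h' => h (by rw [h', Sum.swap_swap])), neg_zero]

theorem ggc (B : Bundle A) {i j : ι} {z : E n} (hz : z ∈ Uo A i j) {κ : Type*} [Fintype κ]
    (x : κ → E n) (hG : ∀ p q, GG (B.wt i) z p q = ∑ l, x l p * conj (x l q)) (p q : Ix n) :
    GG (B.wt j) (ph A i j z) p q
      = ∑ l, fderiv ℂ (ph A i j) z (x l) p * conj (fderiv ℂ (ph A i j) z (x l) q) := by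
  have hsym := Chn_sym A hz
  have hchg := chg_wt B hz
  obtain ⟨T, hT⟩ : ∃ T : Ix n → Ix n → ℂ, T = TT (ph A i j) z := ⟨_, rfl⟩
  obtain ⟨F, hF⟩ : ∃ F : Ix n → Ix n → ℂ, F = LM (B.wt j) (ph A i j z) := ⟨_, rfl⟩
  have hTa : ∀ (a : E n) (p : Ix n), fderiv ℂ (ph A i j) z a p = ∑ k, T p k * a k := by
    intro a p
    rw [hT]
    exact TT_apply _ _ _ _
  rw [← hT] at hsym hchg
  rw [← hF] at hchg
  have hL : GG (B.wt j) (ph A i j z) p q = sg p * sg q * F p.swap q.swap := by rw [hF]; rfl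
  rw [hL]
  have e1 : ∀ l, fderiv ℂ (ph A i j) z (x l) p * conj (fderiv ℂ (ph A i j) z (x l) q) =
      ∑ a, ∑ b, T p a * conj (T q b) * (x l a * conj (x l b)) := by
    intro l
    rw [hTa, hTa, map_sum, Finset.sum_mul_sum]
    refine Finset.sum_congr rfl (fun a _ => Finset.sum_congr rfl (fun b _ => ?_))
    rw [map_mul]
    ring
  rw [Finset.sum_congr rfl (fun l _ => e1 l), Finset.sum_comm]
  have e2 : ∀ a, ∑ l, ∑ b, T p a * conj (T q b) * (x l a * conj (x l b)) =
      ∑ b, T p a * conj (T q b) * (sg a * sg b * ∑ r, ∑ s, T r a.swap * conj (T s b.swap) * F r s) := by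
    intro a
    rw [Finset.sum_comm]
    refine Finset.sum_congr rfl (fun b _ => ?_)
    rw [← Finset.mul_sum, ← hG, ← hchg]
    rfl
  rw [Finset.sum_congr rfl (fun a _ => e2 a)]
  have e3 : ∑ a, ∑ b, T p a * conj (T q b) *
        (sg a * sg b * ∑ r, ∑ s, T r a.swap * conj (T s b.swap) * F r s)
      = ∑ r, ∑ s, F r s * (∑ a, sg a * T p a * T r a.swap) *
        conj (∑ b, sg b * T q b * T s b.swap) := by
    have f1 : ∀ a b, T p a * conj (T q b) *
        (sg a * sg b * ∑ r, ∑ s, T r a.swap * conj (T s b.swap) * F r s) =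
        ∑ r, ∑ s, F r s * (sg a * T p a * T r a.swap) * conj (sg b * T q b * T s b.swap) := by
      intro a b
      rw [← mul_assoc, Finset.mul_sum]
      refine Finset.sum_congr rfl (fun r _ => ?_)
      rw [Finset.mul_sum]
      refine Finset.sum_congr rfl (fun s _ => ?_)
      rw [map_mul, map_mul, conj_sg]
      ring
    rw [Finset.sum_congr rfl (fun a _ => Finset.sum_congr rfl (fun b _ => f1 a b))]
    have f2 : ∀ r s, F r s * (∑ a, sg a * T p a * T r a.swap) *
        conj (∑ b, sg b * T q b * T s b.swap) =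
        ∑ a, ∑ b, F r s * (sg a * T p a * T r a.swap) * conj (sg b * T q b * T s b.swap) := by
      intro r s
      rw [Finset.mul_sum, map_sum, Finset.sum_mul_sum]
    rw [Finset.sum_congr rfl (fun r _ => Finset.sum_congr rfl (fun s _ => f2 r s))]
    rw [Finset.sum_congr rfl (fun a _ => Finset.sum_comm)]
    rw [Finset.sum_comm]
    refine Finset.sum_congr rfl (fun r _ => ?_)
    rw [Finset.sum_congr rfl (fun a _ => Finset.sum_comm)]
    rw [Finset.sum_comm]
  rw [e3, Finset.sum_eq_single p.swap]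
  · rw [Finset.sum_eq_single q.swap]
    · rw [hsym, hsym, if_pos rfl, if_pos rfl, conj_sg]
      ring
    · intro s _ hs
      rw [hsym q s, if_neg hs, map_zero, mul_zero]
    · intro h
      exact absurd (Finset.mem_univ _) h
  · intro r _ hr
    refine Finset.sum_eq_zero (fun s _ => ?_)
    rw [hsym p r, if_neg hr, mul_zero, zero_mul]
  · intro h
    exact absurd (Finset.mem_univ _) h

private theorem Chn_exp (g : ℂ) (hg : g ≠ 0) (m : ℤ) (w : ℝ) :
    cexp (-(((m : ℝ) : ℝ) : ℂ) * ((w + 2 * Real.log ‖g‖ : ℝ) : ℂ)) *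
      ((Complex.normSq (g ^ m) : ℝ) : ℂ) = cexp (-(((m : ℝ) : ℝ) : ℂ) * ((w : ℝ) : ℂ)) := by
  have hgp : 0 < ‖g‖ := norm_pos_iff.2 hg
  have h1 : Complex.normSq (g ^ m) = Real.exp (2 * m * Real.log ‖g‖) := by
    have h2 : ‖g‖ ^ m = Real.exp (Real.log ‖g‖ * m) := by
      rw [← Real.rpow_intCast, Real.rpow_def_of_pos hgp]
    rw [Complex.normSq_eq_norm_sq, norm_zpow, h2, sq, ← Real.exp_add]
    congr 1
    ring
  rw [h1, Complex.ofReal_exp, ← Complex.exp_add]
  congr 1
  push_cast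
  ring

theorem nc_chart (B : Bundle A) (L : ∀ i, Loc (B.wt i) (A.c i).target) {m : ℤ}
    {α : ι → X → Tk n k} (hα : IsTensor B m k α) {i j : ι} {x : X} (hi : x ∈ (A.c i).source)
    (hj : x ∈ (A.c j).source) :
    NC (m : ℝ) (B.wt i) (ta A α i) (A.c i x) = NC (m : ℝ) (B.wt j) (ta A α j) (A.c j x) := by
  have hz : A.c i x ∈ (A.c i).target := (A.c i).map_source hi
  have hzU : A.c i x ∈ Uo A i j := mem_Uo hi hj
  obtain ⟨r, c, hG⟩ := grg ((L i).psd _ hz)
  have hG2 := ggc B hzU (fun l => XX (B.wt i) (A.c i x) (c l)) hG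
  have e1 := hh_gram (GG (B.wt i) (A.c i x)) (fun l => XX (B.wt i) (A.c i x) (c l)) hG
    (ta A α i (A.c i x))
  have e2 := hh_gram (GG (B.wt j) (ph A i j (A.c i x)))
    (fun l => fderiv ℂ (ph A i j) (A.c i x) (XX (B.wt i) (A.c i x) (c l))) hG2
    (ta A α j (A.c j x))
  rw [ph_chart hi] at e2
  unfold NC
  rw [e1, e2, Finset.mul_sum, Finset.mul_sum]
  refine Finset.sum_congr rfl (fun R _ => ?_)
  have hti : ta A α i (A.c i x) = α i x := by
    unfold ta
    rw [(A.c i).left_inv hi]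
  have htj : ta A α j (A.c j x) = α j x := by
    unfold ta
    rw [(A.c j).left_inv hj]
  have hwi : cx (B.wt i) (A.c i x) = ((B.w j x + 2 * Real.log ‖B.g i j x‖ : ℝ) : ℂ) := by
    show ((B.w i ((A.c i).symm (A.c i x)) : ℝ) : ℂ) = _
    rw [(A.c i).left_inv hi, B.trans i j x hi hj]
  have hwj : cx (B.wt j) (A.c j x) = ((B.w j x : ℝ) : ℂ) := by
    show ((B.w j ((A.c j).symm (A.c j x)) : ℝ) : ℂ) = _
    rw [(A.c j).left_inv hj]
  have htr := hα.trans i j x hi hj (fun s => XX (B.wt i) (A.c i x) (c (R s)))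
  rw [hti, htj, hwi, hwj, htr, map_mul, Complex.ofReal_mul, ← mul_assoc,
    Chn_exp _ (B.ne i j x hi hj) m (B.w j x)]
  rfl

end Pool.Agent.BOC
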