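import Pool.Agent.SKF.Defs

/-!
BOC: the Bochner principle for holomorphic tensors with values in `L^m` on a compact holomorphic
symplectic manifold with a semipositive parabolic line bundle `L`. Definitions of the local objects.
Everything is built on Pool.Agent.DTW and the local part of Pool.Agent.SKF.
-/

open scoped ContDiff ComplexConjugate Topology
open Complex

namespace Pool.Agent.BOC

open Pool.Agent.DTW Pool.Agent.SKF

variable {n : ℕ}

/-- covariant tensors of order `k` on `ℂ^(2n)` -/
abbrev Tk (n k : ℕ) : Type := MultilinearMap ℂ (fun _ : Fin k => E n) ℂ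

/-- `G_pq = e_p e_q F_(p' q')`, the Levi form raised with the Poisson bivector -/
noncomputable def GG (w : E n → ℝ) (z : E n) (p q : Ix n) : ℂ :=
  sg p * sg q * LM w z p.swap q.swap

/-- `(G ⊗ ... ⊗ G)(a, ā)` -/
noncomputable def HH {k : ℕ} (G : Ix n → Ix n → ℂ) (a : Tk n k) : ℂ :=
  ∑ I : Fin k → Ix n, ∑ J : Fin k → Ix n,
    (∏ s, G (I s) (J s)) * a (fun s => e (I s)) * conj (a fun s => e (J s))

/-- the length function of a tensor in a chart (complex valued) -/
noncomputable def NC {k : ℕ} (m : ℝ) (w : E n → ℝ) (a : E n → Tk n k) (z : E n) : ℂ :=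
  cexp (-(m : ℂ) * cx w z) * HH (GG w z) (a z)

/-- equality of the jets `(f, ∂_v f, ∂̄_v f, ∂_v ∂̄_v f)` at `z` -/
structure JE (z v : E n) (f g : E n → ℂ) : Prop where
  val : f z = g z
  h10 : d10 f z v = d10 g z v
  h01 : d01 f z v = d01 g z v
  hmx : mx f z v = mx g z v

/-- the affine vector field `x + τ x'` -/
noncomputable def af (z v x x' y : E n) : E n := fun p => x p + tau z v y * x' p

/-- the field `x - τ B x` for a matrix `B` -/
noncomputable def ax (B : Matrix (Ix n) (Ix n) ℂ) (z v x y : E n) : E n :=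
  af z v x (-(B.mulVec x)) y

/-- the holomorphic factor `exp (- m τ ∂_v w(z))` -/
noncomputable def ep (m : ℝ) (w : E n → ℝ) (z v y : E n) : ℂ :=
  cexp (-((m : ℂ) * tau z v y * d10 (cx w) z v))

/-- a tensor depending holomorphically on the point -/
def Hol {k : ℕ} (a : E n → Tk n k) (U : Set (E n)) : Prop :=
  ∀ u : Fin k → E n, DifferentiableOn ℂ (fun y => a y u) U

section global

variable {X : Type*} [TopologicalSpace X] {ι : Type*} {A : Atlas n X ι}

/-- a holomorphic section of `(T^*X)^(⊗k) ⊗ L^m` -/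
structure IsTensor (B : Bundle A) (m : ℤ) (k : ℕ) (α : ι → X → Tk n k) : Prop where
  trans : ∀ i j x, x ∈ (A.c i).source → x ∈ (A.c j).source → ∀ v : Fin k → E n,
    α i x v = B.g i j x ^ m * α j x fun s => fderiv ℂ (A.c j ∘ (A.c i).symm) (A.c i x) (v s)
  hol : ∀ i, ∀ v : Fin k → E n,
    DifferentiableOn ℂ (fun z => α i ((A.c i).symm z) v) (A.c i).target

/-- the tensor in the coordinates of a chart -/
noncomputable def ta {k : ℕ} (A : Atlas n X ι) (α : ι → X → Tk n k) (i : ι) (z : E n) : Tk n k :=
  α i ((A.c i).symm z)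

/-- the length function on `X` -/
noncomputable def NX {k : ℕ} (B : Bundle A) (m : ℤ) (α : ι → X → Tk n k) (x : X) : ℝ :=
  (NC (m : ℝ) (B.wt (ix A x)) (ta A α (ix A x)) (A.c (ix A x) x)).re

end global

end Pool.Agent.BOC
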