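import Pool.Agent.BOC.Defs
import Pool.Agent.SKF.Jpr

/-!
Jet (size 4): calculus of the relation `JE z v f g` (equality of `f(z)`, `∂_v f(z)`, `∂̄_v f(z)`,
`∂_v ∂̄_v f(z)`).
Proofs: `mx_mul`, `mx_add`, `mx_sum`, `mx_conj`, `mx_congr` of SKF.Jpr, `d10_mul`, `d01_mul`, `d10_sum`, `d01_sum`,
`d10_conj`, `d01_conj`, `d10_exp`, `d01_exp`, `d10_congr`, `d01_congr`, `diffAt_of` of DTW.Base. `JE.prod` by
induction on the finite set (`Finset.induction_on`). `mx_cexp`: `∂̄_v exp f = exp f * ∂̄_v f` near `z`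
(`d01_exp` on the open set `U`), then `d10_mul` and `d10_exp`. For holomorphic `g`: `d01 g y v = 0` for all
`y ∈ U` (`d01_of_diff`), so `mx g z v = d10 (fun y => d01 g y v) z v = 0` (`d10_congr`, `d10_const`);
`mx_hol`: product rule, `d10 (conj g') = conj (d01 g') = 0`, `mx (conj g') = conj (mx g') = 0`.
Holomorphic functions on an open set are real smooth: `DifferentiableOn.contDiffOn` over `ℂ` is available in
Mathlib only for functions of one complex variable; here use the hypothesis `ContDiffOn ℝ ∞` as stated.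
-/

open scoped ContDiff ComplexConjugate Topology
open Complex

namespace Pool.Agent.BOC

open Pool.Agent.DTW Pool.Agent.SKF

variable {n : ℕ} {U : Set (E n)} {z v : E n} {f f' g g' : E n → ℂ}

theorem JE.refl (f : E n → ℂ) : JE z v f f := ⟨rfl, rfl, rfl, rfl⟩

theorem JE.trans {h : E n → ℂ} (h1 : JE z v f g) (h2 : JE z v g h) : JE z v f h := ⟨h1.val.trans h2.val, h1.h10.trans h2.h10, h1.h01.trans h2.h01, h1.hmx.trans h2.hmx⟩

theorem JE.congr (hf : f =ᶠ[𝓝 z] f') (hg : g =ᶠ[𝓝 z] g') (h : JE z v f g) : JE z v f' g' := ⟨hf.eq_of_nhds.symm.trans (h.val.trans hg.eq_of_nhds),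
    (d10_congr hf).symm.trans (h.h10.trans (d10_congr hg)),
    (d01_congr hf).symm.trans (h.h01.trans (d01_congr hg)),
    (mx_congr hf).symm.trans (h.hmx.trans (mx_congr hg))⟩

theorem JE.add (hU : IsOpen U) (hz : z ∈ U) (hf : ContDiffOn ℝ ∞ f U) (hf' : ContDiffOn ℝ ∞ f' U)
    (hg : ContDiffOn ℝ ∞ g U) (hg' : ContDiffOn ℝ ∞ g' U) (h : JE z v f f') (h' : JE z v g g') :
    JE z v (fun y => f y + g y) (fun y => f' y + g' y) := by
  have df := diffAt_of hU hf hz
  have df' := diffAt_of hU hf' hz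
  have dg := diffAt_of hU hg hz
  have dg' := diffAt_of hU hg' hz
  refine ⟨?_, ?_, ?_, ?_⟩
  · rw [h.val, h'.val]
  · rw [d10_add df dg, d10_add df' dg', h.h10, h'.h10]
  · rw [d01_add df dg, d01_add df' dg', h.h01, h'.h01]
  · rw [mx_add hU hf hg hz, mx_add hU hf' hg' hz, h.hmx, h'.hmx]

theorem JE.mul (hU : IsOpen U) (hz : z ∈ U) (hf : ContDiffOn ℝ ∞ f U) (hf' : ContDiffOn ℝ ∞ f' U)
    (hg : ContDiffOn ℝ ∞ g U) (hg' : ContDiffOn ℝ ∞ g' U) (h : JE z v f f') (h' : JE z v g g') :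
    JE z v (fun y => f y * g y) (fun y => f' y * g' y) := by
  have df := diffAt_of hU hf hz
  have df' := diffAt_of hU hf' hz
  have dg := diffAt_of hU hg hz
  have dg' := diffAt_of hU hg' hz
  refine ⟨?_, ?_, ?_, ?_⟩
  · rw [h.val, h'.val]
  · rw [d10_mul df dg, d10_mul df' dg', h.h10, h'.h10, h.val, h'.val]
  · rw [d01_mul df dg, d01_mul df' dg', h.h01, h'.h01, h.val, h'.val]
  · rw [mx_mul hU hf hg hz, mx_mul hU hf' hg' hz, h.hmx, h'.hmx, h.h10, h'.h10, h.h01, h'.h01,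
      h.val, h'.val]

theorem JE.sum {κ : Type*} (s : Finset κ) {F F' : κ → E n → ℂ} (hU : IsOpen U) (hz : z ∈ U)
    (hF : ∀ i ∈ s, ContDiffOn ℝ ∞ (F i) U) (hF' : ∀ i ∈ s, ContDiffOn ℝ ∞ (F' i) U)
    (h : ∀ i ∈ s, JE z v (F i) (F' i)) :
    JE z v (fun y => ∑ i ∈ s, F i y) (fun y => ∑ i ∈ s, F' i y) := by
  refine ⟨?_, ?_, ?_, ?_⟩
  · exact Finset.sum_congr rfl fun i hi => (h i hi).val
  · rw [d10_sum s F fun i hi => diffAt_of hU (hF i hi) hz,
      d10_sum s F' fun i hi => diffAt_of hU (hF' i hi) hz]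
    exact Finset.sum_congr rfl fun i hi => (h i hi).h10
  · rw [d01_sum s F fun i hi => diffAt_of hU (hF i hi) hz,
      d01_sum s F' fun i hi => diffAt_of hU (hF' i hi) hz]
    exact Finset.sum_congr rfl fun i hi => (h i hi).h01
  · rw [mx_sum s F hU hF hz, mx_sum s F' hU hF' hz]
    exact Finset.sum_congr rfl fun i hi => (h i hi).hmx

theorem JE.prod {κ : Type*} (s : Finset κ) {F F' : κ → E n → ℂ} (hU : IsOpen U) (hz : z ∈ U)
    (hF : ∀ i ∈ s, ContDiffOn ℝ ∞ (F i) U) (hF' : ∀ i ∈ s, ContDiffOn ℝ ∞ (F' i) U)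
    (h : ∀ i ∈ s, JE z v (F i) (F' i)) :
    JE z v (fun y => ∏ i ∈ s, F i y) (fun y => ∏ i ∈ s, F' i y) := by
  classical
  induction s using Finset.induction_on with
  | empty =>
    simp only [Finset.prod_empty]
    exact JE.refl _
  | insert a s ha ih =>
    simp only [Finset.prod_insert ha]
    have hFs : ∀ i ∈ s, ContDiffOn ℝ ∞ (F i) U := fun i hi => hF i (Finset.mem_insert_of_mem hi)
    have hFs' : ∀ i ∈ s, ContDiffOn ℝ ∞ (F' i) U := fun i hi =>
      hF' i (Finset.mem_insert_of_mem hi)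
    exact JE.mul hU hz (hF a (Finset.mem_insert_self a s)) (hF' a (Finset.mem_insert_self a s))
      (contDiffOn_prod hFs) (contDiffOn_prod hFs') (h a (Finset.mem_insert_self a s))
      (ih hFs hFs' fun i hi => h i (Finset.mem_insert_of_mem hi))

theorem JE.conj (hU : IsOpen U) (hz : z ∈ U) (hf : ContDiffOn ℝ ∞ f U)
    (hf' : ContDiffOn ℝ ∞ f' U) (h : JE z v f f') :
    JE z v (fun y => conj (f y)) (fun y => conj (f' y)) := by
  have df := diffAt_of hU hf hz
  have df' := diffAt_of hU hf' hz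
  refine ⟨?_, ?_, ?_, ?_⟩
  · rw [h.val]
  · rw [d10_conj df, d10_conj df', h.h01]
  · rw [d01_conj df, d01_conj df', h.h10]
  · rw [mx_conj hU hf hz, mx_conj hU hf' hz, h.hmx]

theorem mx_cexp (hU : IsOpen U) (hf : ContDiffOn ℝ ∞ f U) (hz : z ∈ U) :
    mx (fun y => cexp (f y)) z v = cexp (f z) * (mx f z v + d10 f z v * d01 f z v) := by
  have df := diffAt_of hU hf hz
  have dd : DifferentiableAt ℝ (fun y => d01 f y v) z := diffAt_of hU (contDiffOn_d01 hU hf v) hz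
  have h1 : (fun y => d01 (fun x => cexp (f x)) y v) =ᶠ[𝓝 z] fun y => cexp (f y) * d01 f y v := by
    filter_upwards [hU.mem_nhds hz] with y hy
    exact d01_exp (diffAt_of hU hf hy)
  unfold mx
  rw [d10_congr h1, d10_mul df.cexp dd, d10_exp df]
  ring

/-- jets of a holomorphic function -/
theorem hol_jet (hU : IsOpen U) (hz : z ∈ U) (hg : DifferentiableOn ℂ g U) :
    d01 g z v = 0 ∧ mx g z v = 0 := by
  have h0 : ∀ y ∈ U, d01 g y v = 0 := fun y hy =>
    d01_of_diff (hg.differentiableAt (hU.mem_nhds hy)) v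
  refine ⟨h0 z hz, ?_⟩
  have h1 : (fun y => d01 g y v) =ᶠ[𝓝 z] fun _ => (0 : ℂ) := by
    filter_upwards [hU.mem_nhds hz] with y hy
    exact h0 y hy
  unfold mx
  rw [d10_congr h1, d10_const]

/-- mixed derivative of a product of a holomorphic and an antiholomorphic function -/
theorem mx_hol (hU : IsOpen U) (hz : z ∈ U) (hg : DifferentiableOn ℂ g U)
    (hg' : DifferentiableOn ℂ g' U) (hs : ContDiffOn ℝ ∞ g U) (hs' : ContDiffOn ℝ ∞ g' U) :
    mx (fun y => g y * starRingEnd ℂ (g' y)) z v = d10 g z v * starRingEnd ℂ (d10 g' z v) := by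
  have hc : ContDiffOn ℝ ∞ (fun y => starRingEnd ℂ (g' y)) U :=
    Complex.conjCLE.contDiff.comp_contDiffOn hs'
  obtain ⟨j1, j2⟩ := hol_jet (v := v) hU hz hg
  obtain ⟨_, j4⟩ := hol_jet (v := v) hU hz hg'
  rw [mx_mul hU hs hc hz, j1, j2, mx_conj hU hs' hz, j4, d01_conj (diffAt_of hU hs' hz), map_zero]
  ring

end Pool.Agent.BOC
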