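import Pool.Agent.BOC.Defs
import Pool.Agent.BOC.Jet
import Pool.Agent.SKF.Del
import Pool.Agent.SKF.JetA
import Pool.Agent.SKF.Jpr

/-!
Gjt (size 5): the jet of `GG w` at `z` in the direction `v = XX w z b`.
For every index `k` let `β k`, `γ k` be the vectors of `ex_bet`, `ex_gam` for `a = e k`:
`levi w z (β k) l = - d10 (Lf w (e k) l) z v`, `levi w z (γ k) m = d10 (uu2 w (e k) m) z v`.
With `F_kl(y) = LM w y k l = Lf w (e k) (e l) y`: `d10 F_kl z v = - levi (β k) (e l)`,
`d01 F_kl z v = conj (d10 F_lk z v) = - levi (e k) (β l)` (`conj_d10_Lf`, `levi_conj`), and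
`mx F_kl z v = levi (β k) (β l) + levi (γ l) (γ k)` (`jetA`).
`B p r := sg p * sg r * β p.swap r.swap`. Gram form of `LM w z` (`Psd.gram`, `L.psd`):
`LM w z p q = ∑ j, f j p * conj (f j q)`, so `levi (γ l) (γ k) = ∑ j, conj (g j k) * g j l`,
`g j k := ∑ p, γ k p * f j p`; put `h j k := sg k * conj (g j k.swap)`.
First claim: `XX w y c p = sg p * ∑ j, LM w y p.swap j * conj (c j)`, so the derivative is
`- sg p * levi w z (β p.swap) c` and `(B *ᵥ XX w z c) p = sg p * ∑ r, β p.swap r.swap * sg r * XX w z c r
 = sg p * levi w z (β p.swap) c` (`sg_sq`, `sum_swap`, `levi_eq_sum`).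
Second claim: the jets of `af z v x x' y p = x p + τ(y) x' p` at `z`: value `x p`, `d10 = x' p` (`v ≠ 0`:
`d10 (tau z v) z v = 1`), `d01 = 0`, `mx = 0` (use `jet_bb`, `jet_bbc` with `b = x`, `β = x'`, `δ = 0`, or directly);
so the right side `R_kl = ∑ i, u_i k * conj (u_i l)` has value `∑ x_i k * conj (x_i l)` (`h` part 0),
`d10 = ∑ - (B x_i) k * conj (x_i l) = - ∑ r, B k r * GG w z r l`, `d01` conjugate transposed,
`mx = ∑ (B x_i) k * conj ((B x_i) l) + ∑ j, h j k * conj (h j l)
    = ∑ r s, B k r * conj (B l s) * GG w z r s + ...`. Compare, all with `sg`, `swap`, `sum_swap`.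
-/

open scoped ContDiff ComplexConjugate Topology
open Complex

namespace Pool.Agent.BOC

open Pool.Agent.DTW Pool.Agent.SKF

variable {n : ℕ} {U : Set (E n)} {w : E n → ℝ} {z : E n}

private theorem gjt_af (z v x x' : E n) (k : Ix n) :
    (fun y => af z v x x' y k) = fun y => bb z v x x' 0 y k := by
  funext y
  simp [af, bb]

private theorem gjt_jet {z v : E n} (hv : v ≠ 0) (x x' u u' : E n) (k l : Ix n) :
    af z v x x' z k * conj (af z v u u' z l) = x k * conj (u l) ∧
    d10 (fun y => af z v x x' y k * conj (af z v u u' y l)) z v = x' k * conj (u l) ∧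
    d01 (fun y => af z v x x' y k * conj (af z v u u' y l)) z v = x k * conj (u' l) ∧
    mx (fun y => af z v x x' y k * conj (af z v u u' y l)) z v = x' k * conj (u' l) := by
  have e1 : (fun y => af z v x x' y k * conj (af z v u u' y l))
      = fun y => (fun y => bb z v x x' 0 y k) y * (fun y => conj (bb z v u u' 0 y l)) y := by
    funext y
    have a := congrFun (gjt_af z v x x' k) y
    have b := congrFun (gjt_af z v u u' l) y
    simp only at a b ⊢
    rw [a, b]
  obtain ⟨a1, a2, a3⟩ := jet_bb (z := z) hv x x' 0 k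
  obtain ⟨b1, b2, b3⟩ := jet_bbc (z := z) hv u u' 0 l
  have s1 : ContDiff ℝ ∞ (fun y => bb z v x x' 0 y k) := smooth_bb z v x x' 0 k
  have s2 : ContDiff ℝ ∞ (fun y => conj (bb z v u u' 0 y l)) :=
    (Complex.conjCLE : ℂ →L[ℝ] ℂ).contDiff.comp (smooth_bb z v u u' 0 l)
  have d1 : DifferentiableAt ℝ (fun y => bb z v x x' 0 y k) z :=
    s1.contDiffAt.differentiableAt (by simp)
  have d2 : DifferentiableAt ℝ (fun y => conj (bb z v u u' 0 y l)) z :=
    s2.contDiffAt.differentiableAt (by simp)
  have v1 : bb z v x x' 0 z k = x k := by rw [bb_self]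
  have v2 : bb z v u u' 0 z l = u l := by rw [bb_self]
  refine ⟨?_, ?_, ?_, ?_⟩
  · have h := congrFun e1 z
    simp only at h
    rw [h, v1, v2]
  · rw [e1, d10_mul d1 d2, a1, b1, v2]
    ring
  · rw [e1, d01_mul d1 d2, a2, b2, v1]
    ring
  · rw [e1, mx_mul isOpen_univ s1.contDiffOn s2.contDiffOn (Set.mem_univ z), a1, a2, a3, b1, b2, b3]
    simp

private theorem gjt_smooth (z v x x' u u' : E n) (k l : Ix n) :
    ContDiff ℝ ∞ (fun y => af z v x x' y k * conj (af z v u u' y l)) := by
  have e1 : (fun y => af z v x x' y k * conj (af z v u u' y l))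
      = fun y => (fun y => bb z v x x' 0 y k) y * (fun y => conj (bb z v u u' 0 y l)) y := by
    funext y
    have a := congrFun (gjt_af z v x x' k) y
    have b := congrFun (gjt_af z v u u' l) y
    simp only at a b ⊢
    rw [a, b]
  rw [e1]
  exact (smooth_bb z v x x' 0 k).mul
    ((Complex.conjCLE : ℂ →L[ℝ] ℂ).contDiff.comp (smooth_bb z v u u' 0 l))

private theorem gjt_left {w : E n → ℝ} {z : E n} (hw : ContDiffAt ℝ ∞ w z) (k : Ix n) (c : E n) :
    levi w z (e k) c = ∑ l, conj (c l) * LM w z k l := by
  rw [levi_eq_sum hw, Finset.sum_eq_single k]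
  · simp [e]
  · intro p _ hp
    refine Finset.sum_eq_zero fun l _ => ?_
    simp [e, hp]
  · intro h
    exact absurd (Finset.mem_univ k) h

private theorem gjt_right {w : E n → ℝ} {z : E n} (hw : ContDiffAt ℝ ∞ w z) (a : E n) (l : Ix n) :
    levi w z a (e l) = ∑ k, a k * LM w z k l := by
  rw [levi_eq_sum hw]
  refine Finset.sum_congr rfl fun k _ => ?_
  rw [Finset.sum_eq_single l]
  · simp [e]
  · intro p _ hp
    simp [e, hp]
  · intro h
    exact absurd (Finset.mem_univ l) h

theorem gjt (L : Loc w U) (hz : z ∈ U) (b : E n) (hv : XX w z b ≠ 0) :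
    ∃ (B : Matrix (Ix n) (Ix n) ℂ) (q : ℕ) (h : Fin q → E n),
      (∀ c p, d10 (fun y => XX w y c p) z (XX w z b) = -(B.mulVec (XX w z c)) p) ∧
      ∀ (r : ℕ) (x : Fin r → E n), (∀ k l, GG w z k l = ∑ i, x i k * conj (x i l)) →
        ∀ k l, JE z (XX w z b) (fun y => GG w y k l)
          (fun y => ∑ i : Fin r ⊕ Fin q,
            af z (XX w z b) (Sum.elim x (fun _ => 0) i) (Sum.elim (fun i => -(B.mulVec (x i))) h i) y k
            * conj (af z (XX w z b) (Sum.elim x (fun _ => 0) i)
                (Sum.elim (fun i => -(B.mulVec (x i))) h i) y l)) := by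
  have hw : ContDiffAt ℝ ∞ w z := L.sm.contDiffAt (L.op.mem_nhds hz)
  have hβ' := fun k : Ix n => ex_bet L hz b (e k)
  choose β hβ using hβ'
  have hγ' := fun k : Ix n => ex_gam L hz b (e k)
  choose γ hγ using hγ'
  obtain ⟨q, f, hf⟩ := (L.psd z hz).gram
  set v : E n := XX w z b with hvdef
  -- jets of the matrix entries
  have hsm : ∀ k l : Ix n, ContDiffOn ℝ ∞ (fun y => LM w y k l) U := fun k l =>
    smooth_Lf L (e k) (e l)
  have hdf : ∀ k l : Ix n, DifferentiableAt ℝ (fun y => LM w y k l) z := fun k l =>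
    diffAt_of L.op (hsm k l) hz
  have F10 : ∀ k l : Ix n, d10 (fun y => LM w y k l) z v = -∑ p, β k p * LM w z p l := by
    intro k l
    have h1 : d10 (fun y => LM w y k l) z v = d10 (Lf w (e k) (e l)) z v := rfl
    have h2 := hβ k (e l)
    rw [gjt_right hw] at h2
    rw [h1, h2, neg_neg]
  have F01 : ∀ k l : Ix n, d01 (fun y => LM w y k l) z v = -∑ p, conj (β l p) * LM w z k p := by
    intro k l
    have h1 : d01 (fun y => LM w y k l) z v = d01 (Lf w (e k) (e l)) z v := rfl
    have h2 : d10 (Lf w (e l) (e k)) z v = -∑ p, β l p * LM w z p k := F10 l k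
    rw [h1, ← conj_d10_Lf L hz, h2, map_neg, map_sum]
    congr 1
    refine Finset.sum_congr rfl fun p _ => ?_
    rw [map_mul, (L.psd z hz).herm]
  have Fmx : ∀ k l : Ix n, mx (fun y => LM w y k l) z v
      = (∑ p, ∑ s, β k p * conj (β l s) * LM w z p s)
        + ∑ p, ∑ s, γ l p * conj (γ k s) * LM w z p s := by
    intro k l
    have h1 : mx (fun y => LM w y k l) z v = mx (Lf w (e k) (e l)) z v := rfl
    rw [h1, hvdef, jetA L hz b (e k) (e l) (β k) (β l) (γ k) (γ l) (hβ k) (hβ l) (hγ k) (hγ l),
      levi_eq_sum hw, levi_eq_sum hw]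
  refine ⟨Matrix.of fun p r => sg p * sg r * β p.swap r.swap, q,
    fun j k => sg k * conj (∑ p, γ k.swap p * f j p), ?_, ?_⟩
  · intro c p
    have h1 : (fun y => XX w y c p)
        = fun y => sg p * ∑ j, conj (c j) * (fun y => LM w y p.swap j) y := by
      funext y
      simp only [XX]
      congr 1
      exact Finset.sum_congr rfl fun j _ => mul_comm _ _
    have h2 : DifferentiableAt ℝ (fun y => ∑ j, conj (c j) * (fun y => LM w y p.swap j) y) z :=
      DifferentiableAt.fun_sum fun j _ => (hdf _ _).const_mul _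
    rw [h1, d10_const_mul h2, d10_sum _ _ fun j _ => (hdf _ _).const_mul _]
    simp only [Matrix.mulVec, dotProduct, Matrix.of_apply]
    have h3 : ∀ j : Ix n, d10 (fun y => conj (c j) * (fun y => LM w y p.swap j) y) z v
        = conj (c j) * -∑ r, β p.swap r * LM w z r j := by
      intro j
      rw [d10_const_mul (hdf _ _), F10]
    simp only [h3]
    have h4 : ∀ r : Ix n, sg p * sg r * β p.swap r.swap * XX w z c r
        = (fun r : Ix n => sg p * (β p.swap r * ∑ j, LM w z r j * conj (c j))) r.swap := by
      intro r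
      simp only [XX]
      linear_combination (sg p * (β p.swap r.swap * ∑ j, LM w z r.swap j * conj (c j))) * sg_sq r
    simp only [h4]
    rw [sum_swap (fun r : Ix n => sg p * (β p.swap r * ∑ j, LM w z r j * conj (c j)))]
    rw [← Finset.mul_sum]
    simp only [mul_neg, Finset.sum_neg_distrib, Finset.mul_sum]
    congr 1
    rw [Finset.sum_comm]
    refine Finset.sum_congr rfl fun r _ => Finset.sum_congr rfl fun j _ => ?_
    ring
  · intro r x hx k l
    set B : Matrix (Ix n) (Ix n) ℂ := Matrix.of fun p r => sg p * sg r * β p.swap r.swap with hB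
    set h : Fin q → E n := fun j k => sg k * conj (∑ p, γ k.swap p * f j p) with hh
    have eG : (fun y => GG w y k l)
        = fun y => (sg k * sg l) * (fun y => LM w y k.swap l.swap) y := rfl
    have hs : ∀ i ∈ (Finset.univ : Finset (Fin r ⊕ Fin q)), ContDiffOn ℝ ∞ (fun y =>
        af z v (Sum.elim x (fun _ => 0) i) (Sum.elim (fun i => -(B.mulVec (x i))) h i) y k
        * conj (af z v (Sum.elim x (fun _ => 0) i)
            (Sum.elim (fun i => -(B.mulVec (x i))) h i) y l)) Set.univ := fun i _ =>
      (gjt_smooth z v _ _ _ _ k l).contDiffOn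
    have hd : ∀ i ∈ (Finset.univ : Finset (Fin r ⊕ Fin q)), DifferentiableAt ℝ (fun y =>
        af z v (Sum.elim x (fun _ => 0) i) (Sum.elim (fun i => -(B.mulVec (x i))) h i) y k
        * conj (af z v (Sum.elim x (fun _ => 0) i)
            (Sum.elim (fun i => -(B.mulVec (x i))) h i) y l)) z := fun i hi =>
      diffAt_of isOpen_univ (hs i hi) (Set.mem_univ z)
    have hBx : ∀ i k, (B.mulVec (x i)) k = ∑ s, B k s * x i s := fun i k => rfl
    have hBe : ∀ p r, B p r = sg p * sg r * β p.swap r.swap := fun p r => rfl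
    refine ⟨?_, ?_, ?_, ?_⟩
    · rw [Fintype.sum_sum_type, hx k l]
      simp only [Sum.elim_inl, Sum.elim_inr]
      have h1 : ∀ i : Fin r, af z v (x i) (-(B.mulVec (x i))) z k
          * conj (af z v (x i) (-(B.mulVec (x i))) z l) = x i k * conj (x i l) := fun i =>
        (gjt_jet hv _ _ _ _ k l).1
      have h2 : ∀ i : Fin q, af z v 0 (h i) z k * conj (af z v 0 (h i) z l) = 0 := fun i => by
        rw [(gjt_jet hv _ _ _ _ k l).1]
        simp
      simp only [h1, h2, Finset.sum_const_zero, add_zero]
    · rw [d10_sum _ _ hd, Fintype.sum_sum_type]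
      simp only [Sum.elim_inl, Sum.elim_inr]
      have h1 : ∀ i : Fin r, d10 (fun y => af z v (x i) (-(B.mulVec (x i))) y k
          * conj (af z v (x i) (-(B.mulVec (x i))) y l)) z v
          = -∑ s, B k s * (x i s * conj (x i l)) := fun i => by
        rw [(gjt_jet hv _ _ _ _ k l).2.1, Pi.neg_apply, hBx, neg_mul, Finset.sum_mul]
        congr 1
        exact Finset.sum_congr rfl fun s _ => by ring
      have h2 : ∀ i : Fin q, d10 (fun y => af z v 0 (h i) y k * conj (af z v 0 (h i) y l)) z v
          = 0 := fun i => by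
        rw [(gjt_jet hv _ _ _ _ k l).2.1]
        simp
      simp only [h1, h2, Finset.sum_const_zero, add_zero, Finset.sum_neg_distrib]
      rw [Finset.sum_comm, eG, d10_const_mul (hdf _ _), F10, mul_neg]
      congr 1
      rw [← sum_swap (fun p => β k.swap p * LM w z p l.swap), Finset.mul_sum]
      refine Finset.sum_congr rfl fun s _ => ?_
      rw [← Finset.mul_sum, ← hx s l]
      simp only [hBe, GG]
      linear_combination (-(sg k * sg l * (β k.swap s.swap * LM w z s.swap l.swap))) * sg_sq s
    · rw [d01_sum _ _ hd, Fintype.sum_sum_type]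
      simp only [Sum.elim_inl, Sum.elim_inr]
      have h1 : ∀ i : Fin r, d01 (fun y => af z v (x i) (-(B.mulVec (x i))) y k
          * conj (af z v (x i) (-(B.mulVec (x i))) y l)) z v
          = -∑ s, conj (B l s) * (x i k * conj (x i s)) := fun i => by
        rw [(gjt_jet hv _ _ _ _ k l).2.2.1, Pi.neg_apply, hBx, map_neg, map_sum, mul_neg,
          Finset.mul_sum]
        congr 1
        refine Finset.sum_congr rfl fun s _ => ?_
        rw [map_mul]
        ring
      have h2 : ∀ i : Fin q, d01 (fun y => af z v 0 (h i) y k * conj (af z v 0 (h i) y l)) z v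
          = 0 := fun i => by
        rw [(gjt_jet hv _ _ _ _ k l).2.2.1]
        simp
      simp only [h1, h2, Finset.sum_const_zero, add_zero, Finset.sum_neg_distrib]
      rw [Finset.sum_comm, eG, d01_const_mul (hdf _ _), F01, mul_neg]
      congr 1
      rw [← sum_swap (fun p => conj (β l.swap p) * LM w z k.swap p), Finset.mul_sum]
      refine Finset.sum_congr rfl fun s _ => ?_
      rw [← Finset.mul_sum, ← hx k s]
      simp only [hBe, GG, map_mul, conj_sg]
      linear_combination (-(sg k * sg l * (conj (β l.swap s.swap) * LM w z k.swap s.swap))) * sg_sq s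
    · rw [mx_sum _ _ isOpen_univ hs (Set.mem_univ z), Fintype.sum_sum_type]
      simp only [Sum.elim_inl, Sum.elim_inr]
      have h1 : ∀ i : Fin r, mx (fun y => af z v (x i) (-(B.mulVec (x i))) y k
          * conj (af z v (x i) (-(B.mulVec (x i))) y l)) z v
          = ∑ s, ∑ t, B k s * conj (B l t) * (x i s * conj (x i t)) := fun i => by
        rw [(gjt_jet hv _ _ _ _ k l).2.2.2, Pi.neg_apply, Pi.neg_apply, hBx, hBx, map_neg,
          neg_mul_neg, map_sum, Finset.sum_mul_sum]
        refine Finset.sum_congr rfl fun s _ => Finset.sum_congr rfl fun t _ => ?_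
        rw [map_mul]
        ring
      have h2 : ∀ j : Fin q, mx (fun y => af z v 0 (h j) y k * conj (af z v 0 (h j) y l)) z v
          = ∑ p, ∑ s, sg k * sg l * (γ l.swap p * conj (γ k.swap s) * (f j p * conj (f j s))) :=
        fun j => by
        rw [(gjt_jet hv _ _ _ _ k l).2.2.2]
        simp only [hh, map_mul, conj_sg, map_sum, Complex.conj_conj]
        have h3 : sg k * (∑ s, conj (γ k.swap s) * conj (f j s))
            * (sg l * ∑ p, γ l.swap p * f j p)
            = sg k * sg l * ((∑ p, γ l.swap p * f j p) * ∑ s, conj (γ k.swap s) * conj (f j s)) := by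
          ring
        rw [h3, Finset.sum_mul_sum, Finset.mul_sum]
        refine Finset.sum_congr rfl fun p _ => ?_
        rw [Finset.mul_sum]
        refine Finset.sum_congr rfl fun s _ => ?_
        ring
      simp only [h1, h2]
      rw [eG, mx_const_mul L.op (hsm _ _) hz, Fmx, mul_add]
      congr 1
      · conv_rhs => rw [Finset.sum_comm]
        have h4 : ∀ s : Ix n, ∑ i : Fin r, ∑ t, B k s * conj (B l t) * (x i s * conj (x i t))
            = ∑ t, B k s * conj (B l t) * GG w z s t := by
          intro s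
          rw [Finset.sum_comm]
          refine Finset.sum_congr rfl fun t _ => ?_
          rw [← Finset.mul_sum, ← hx s t]
        rw [Finset.sum_congr rfl fun s _ => h4 s]
        rw [← sum_swap (fun p => ∑ s, β k.swap p * conj (β l.swap s) * LM w z p s), Finset.mul_sum]
        refine Finset.sum_congr rfl fun s _ => ?_
        rw [← sum_swap (fun t => β k.swap s.swap * conj (β l.swap t) * LM w z s.swap t),
          Finset.mul_sum]
        refine Finset.sum_congr rfl fun t _ => ?_
        change sg k * sg l * (β k.swap s.swap * conj (β l.swap t.swap) * LM w z s.swap t.swap)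
          = (sg k * sg s * β k.swap s.swap) * conj (sg l * sg t * β l.swap t.swap)
            * (sg s * sg t * LM w z s.swap t.swap)
        rw [map_mul, map_mul, conj_sg, conj_sg]
        have hss := sg_sq s
        have htt := sg_sq t
        linear_combination (-(sg k * sg l * (β k.swap s.swap * conj (β l.swap t.swap)
          * LM w z s.swap t.swap)) * (sg t * sg t)) * hss
          - (sg k * sg l * (β k.swap s.swap * conj (β l.swap t.swap)
          * LM w z s.swap t.swap)) * htt
      · rw [Finset.mul_sum]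
        conv_rhs => rw [Finset.sum_comm]
        refine Finset.sum_congr rfl fun p _ => ?_
        rw [Finset.mul_sum]
        conv_rhs => rw [Finset.sum_comm]
        refine Finset.sum_congr rfl fun s _ => ?_
        rw [hf p s, Finset.mul_sum, Finset.mul_sum]

end Pool.Agent.BOC
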