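import Pool.Agent.BOC.Defs
import Pool.Agent.BOC.Jet
import Pool.Agent.BOC.Ten
import Pool.Agent.SKF.LvA

/-!
Mxn (size 5): the mixed derivative of the length function.
Let `u_i(y) = af z v (x i) (x' i) y`, `Ĝ_pq(y) = ∑ i, u_i(y) p * conj (u_i(y) q)`.
(1) `HH (GG w y) (a y)` and `HH (Ĝ y) (a y)` have the same jet: `HH` is a finite sum of products of the entries and of
`a y (e ∘ I)`, `conj (a y (e ∘ J))` (`JE.sum`, `JE.prod`, `JE.mul`, `hG`, `JE.refl`); smoothness on `U`: entries of
`GG` (`contDiffOn_LM` or `smooth_Lf`), of `af` (`smooth_tau`), of `a y u` (hypothesis `hs`).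
(2) weight: `f(y) = - m * cx w y` and `f0 + l(y) + conj (l(y))`, `f0 = - m w(z)`, `l(y) = - m τ(y) ∂_v w(z)`, have
the same jet (`d01 (cx w) z v = conj (d10 (cx w) z v)`, `mx (cx w) z v = levi w z v v = 0` by `hk`), so by
`mx_cexp`, `d10_exp`, `d01_exp` also `exp f` and `exp f0 * ep * conj ep`.
(3) so `NC m w a` has the same jet as `exp f0 * ∑ R, g_R * conj g_R` (`hh_gram` pointwise,
`Complex.mul_conj`), `g_R(y) = ep m w z v y * a y (fun s => u_(R s)(y))`, holomorphic on `U`:
`ten_expand`: a finite sum of products of holomorphic functions. (`tau z v` is complex affine.)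
(4) `mx_hol` for each `R`, `mx_sum`, `mx_const_mul`, `Complex.mul_conj`.
-/

open scoped ContDiff ComplexConjugate Topology
open Complex

namespace Pool.Agent.BOC

open Pool.Agent.DTW Pool.Agent.SKF

variable {n k : ℕ} {U : Set (E n)} {w : E n → ℝ} {z : E n}

private theorem Mxn_conjd {f : E n → ℂ} {U : Set (E n)} (hf : ContDiffOn ℝ ∞ f U) :
    ContDiffOn ℝ ∞ (fun y => conj (f y)) U := by
  have h := (Complex.conjCLE : ℂ →L[ℝ] ℂ).contDiff (n := ∞) |>.comp_contDiffOn hf
  exact h

private theorem Mxn_tau_eq (z v : E n) (y : E n) :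
    tau z v y = (∑ k, conj (v k) * (y k - z k)) / (∑ k, ((Complex.normSq (v k) : ℝ) : ℂ)) := rfl

/-- `tau` is holomorphic, `∂_v τ = 1` -/
theorem tau_hol (z v : E n) : Differentiable ℂ (tau z v) := by
  have h : tau z v = fun y : E n => (∑ k, conj (v k) * (y k - z k))
      / (∑ k, ((Complex.normSq (v k) : ℝ) : ℂ)) := rfl
  rw [h]
  have h2 : Differentiable ℂ (fun y : E n => ∑ k, conj (v k) * (y k - z k)) := by
    refine Differentiable.fun_sum fun k _ => ?_
    have h1 : Differentiable ℂ (fun y : E n => y k) := by fun_prop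
    exact (h1.sub_const _).const_mul _
  simp only [div_eq_mul_inv]
  exact h2.mul_const _

theorem tau_d10 (z : E n) {v : E n} (hv : v ≠ 0) : d10 (tau z v) z v = 1 := by
  obtain ⟨k, hk⟩ : ∃ k, v k ≠ 0 := by
    by_contra h
    push Not at h
    exact hv (funext h)
  have h1 := (jet_bb (z := z) hv (0 : E n) (e k) (0 : E n) k).1
  have h2 : (fun y => bb z v (0 : E n) (e k) (0 : E n) y k) = tau z v := by
    funext y
    simp [bb, e]
  rw [h2] at h1
  rw [h1]
  simp [e]

/-- equality of jets is preserved by the exponential -/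
private theorem Mxn_exp {z v : E n} {f g : E n → ℂ} {U : Set (E n)} (hU : IsOpen U) (hz : z ∈ U)
    (hf : ContDiffOn ℝ ∞ f U) (hg : ContDiffOn ℝ ∞ g U) (h : JE z v f g) :
    JE z v (fun y => cexp (f y)) (fun y => cexp (g y)) := by
  refine ⟨?_, ?_, ?_, ?_⟩
  · rw [h.val]
  · rw [d10_exp (diffAt_of hU hf hz), d10_exp (diffAt_of hU hg hz), h.val, h.h10]
  · rw [d01_exp (diffAt_of hU hf hz), d01_exp (diffAt_of hU hg hz), h.val, h.h01]
  · rw [mx_cexp hU hf hz, mx_cexp hU hg hz, h.val, h.h10, h.h01, h.hmx]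

private theorem Mxn_d01_cx {w : E n → ℝ} {U : Set (E n)} (hU : IsOpen U) (hz : z ∈ U)
    (hw : ContDiffOn ℝ ∞ w U) (v : E n) :
    d01 (cx w) z v = conj (d10 (cx w) z v) := by
  have h := d01_conj (f := cx w) (z := z) (a := v) (diffAt_of hU (contDiffOn_cx hw) hz)
  have h2 : (fun y => conj (cx w y)) = cx w := by
    funext y
    exact Complex.conj_ofReal _
  rwa [h2] at h

/-- the weight: `- m w` has the jet of a constant plus a holomorphic plus its conjugate -/
private theorem Mxn_weight (L : Loc w U) (hz : z ∈ U) {v : E n} (hv : v ≠ 0)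
    (hk : ∀ c, levi w z v c = 0) (m : ℝ) :
    JE z v (fun y => -(m : ℂ) * cx w y)
      (fun y => (-((m : ℂ) * cx w z) + -((m : ℂ) * tau z v y * d10 (cx w) z v))
        + conj (-((m : ℂ) * tau z v y * d10 (cx w) z v))) := by
  set D : ℂ := d10 (cx w) z v with hD
  set l : E n → ℂ := fun y => -((m : ℂ) * tau z v y * D) with hl
  have hlhol : Differentiable ℂ l := by
    have := tau_hol z v
    exact ((this.const_mul _).mul_const _).neg
  have hls : ContDiffOn ℝ ∞ l U := by
    have h1 : ContDiffOn ℝ ∞ (tau z v) U := (smooth_tau z v).contDiffOn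
    exact ((contDiffOn_const.mul h1).mul contDiffOn_const).neg
  have hlc : ContDiffOn ℝ ∞ (fun y => conj (l y)) U := Mxn_conjd hls
  have hcw : ContDiffOn ℝ ∞ (cx w) U := contDiffOn_cx L.sm
  have hlj := hol_jet (v := v) L.op hz hlhol.differentiableOn
  have hc : ContDiffOn ℝ ∞ (fun _ : E n => -((m : ℂ) * cx w z)) U := contDiffOn_const
  have hcl : ContDiffOn ℝ ∞ (fun y => -((m : ℂ) * cx w z) + l y) U := hc.add hls
  have hl10 : d10 l z v = -((m : ℂ) * D) := by
    have h1 : l = fun y => (-((m : ℂ) * D)) * tau z v y := by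
      funext y
      rw [hl]
      ring
    rw [h1, d10_const_mul (diffAt_of L.op (smooth_tau z v).contDiffOn hz), tau_d10 z hv]
    ring
  have hf10 : d10 (fun y => -(m : ℂ) * cx w y) z v = -(m : ℂ) * D :=
    d10_const_mul (diffAt_of L.op hcw hz) _
  have hf01 : d01 (fun y => -(m : ℂ) * cx w y) z v = -(m : ℂ) * conj D := by
    rw [d01_const_mul (diffAt_of L.op hcw hz), Mxn_d01_cx L.op hz L.sm]
  have hfmx : mx (fun y => -(m : ℂ) * cx w y) z v = 0 := by
    rw [mx_const_mul L.op hcw hz]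
    have : mx (cx w) z v = levi w z v v := rfl
    rw [this, hk v, mul_zero]
  refine ⟨?_, ?_, ?_, ?_⟩
  · simp [tau_self]
  · rw [hf10, d10_add (diffAt_of L.op hcl hz) (diffAt_of L.op hlc hz),
      d10_add (diffAt_of L.op hc hz) (diffAt_of L.op hls hz), d10_const,
      d10_conj (diffAt_of L.op hls hz), hlj.1, hl10]
    simp
  · rw [hf01, d01_add (diffAt_of L.op hcl hz) (diffAt_of L.op hlc hz),
      d01_add (diffAt_of L.op hc hz) (diffAt_of L.op hls hz), d01_const,
      d01_conj (diffAt_of L.op hls hz), hlj.1, hl10]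
    simp
  · rw [hfmx, mx_add L.op hcl hlc hz, mx_add L.op hc hls hz, mx_const, mx_conj L.op hls hz, hlj.2]
    simp

private theorem Mxn_af_smooth (z v x x' : E n) (U : Set (E n)) (p : Ix n) :
    ContDiffOn ℝ ∞ (fun y => af z v x x' y p) U := by
  have h1 : ContDiffOn ℝ ∞ (tau z v) U := (smooth_tau z v).contDiffOn
  exact contDiffOn_const.add (h1.mul contDiffOn_const)

private theorem Mxn_af_hol (z v x x' : E n) (p : Ix n) :
    Differentiable ℂ (fun y => af z v x x' y p) := by
  have := tau_hol z v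
  exact (this.mul_const _).const_add _

private theorem Mxn_prod {κ : Type*} (s : Finset κ) {F : κ → E n → ℂ}
    (h : ∀ i ∈ s, DifferentiableOn ℂ (F i) U) : DifferentiableOn ℂ (fun y => ∏ i ∈ s, F i y) U := by
  classical
  induction s using Finset.induction_on with
  | empty => simp only [Finset.prod_empty]; exact differentiableOn_const _
  | insert i s hi ih =>
    simp only [Finset.prod_insert hi]
    exact (h i (Finset.mem_insert_self _ _)).mul
      (ih fun j hj => h j (Finset.mem_insert_of_mem hj))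

/-- the Hermitian sum of both matrices have the same jet -/
private theorem Mxn_HH {G G' : E n → Ix n → Ix n → ℂ} (hU : IsOpen U) (hz : z ∈ U) {v : E n}
    {a : E n → Tk n k} (hs : ∀ u, ContDiffOn ℝ ∞ (fun y => a y u) U)
    (hGs : ∀ p q, ContDiffOn ℝ ∞ (fun y => G y p q) U)
    (hGs' : ∀ p q, ContDiffOn ℝ ∞ (fun y => G' y p q) U)
    (hG : ∀ p q, JE z v (fun y => G y p q) (fun y => G' y p q)) :
    JE z v (fun y => HH (G y) (a y)) (fun y => HH (G' y) (a y)) ∧
      ContDiffOn ℝ ∞ (fun y => HH (G y) (a y)) U ∧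
      ContDiffOn ℝ ∞ (fun y => HH (G' y) (a y)) U := by
  have hP : ∀ (H : E n → Ix n → Ix n → ℂ), (∀ p q, ContDiffOn ℝ ∞ (fun y => H y p q) U) →
      ∀ I J : Fin k → Ix n, ContDiffOn ℝ ∞ (fun y => ∏ s, H y (I s) (J s)) U := by
    intro H hH I J
    exact contDiffOn_prod fun s _ => hH _ _
  have hT : ∀ (H : E n → Ix n → Ix n → ℂ), (∀ p q, ContDiffOn ℝ ∞ (fun y => H y p q) U) →
      ∀ I J : Fin k → Ix n, ContDiffOn ℝ ∞ (fun y => (∏ s, H y (I s) (J s)) *
        a y (fun s => e (I s)) * conj (a y fun s => e (J s))) U := by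
    intro H hH I J
    exact ((hP H hH I J).mul (hs _)).mul (Mxn_conjd (hs _))
  have hS : ∀ (H : E n → Ix n → Ix n → ℂ), (∀ p q, ContDiffOn ℝ ∞ (fun y => H y p q) U) →
      ∀ I : Fin k → Ix n, ContDiffOn ℝ ∞ (fun y => ∑ J : Fin k → Ix n, (∏ s, H y (I s) (J s)) *
        a y (fun s => e (I s)) * conj (a y fun s => e (J s))) U := by
    intro H hH I
    exact ContDiffOn.sum fun J _ => hT H hH I J
  refine ⟨?_, ?_, ?_⟩
  · unfold HH
    refine JE.sum Finset.univ hU hz (fun I _ => hS G hGs I) (fun I _ => hS G' hGs' I) fun I _ => ?_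
    refine JE.sum Finset.univ hU hz (fun J _ => hT G hGs I J) (fun J _ => hT G' hGs' I J)
      fun J _ => ?_
    refine JE.mul hU hz ((hP G hGs I J).mul (hs _)) ((hP G' hGs' I J).mul (hs _))
      (Mxn_conjd (hs _)) (Mxn_conjd (hs _)) ?_ (JE.refl _)
    refine JE.mul hU hz (hP G hGs I J) (hP G' hGs' I J) (hs _) (hs _) ?_ (JE.refl _)
    exact JE.prod Finset.univ hU hz (fun s _ => hGs _ _) (fun s _ => hGs' _ _)
      fun s _ => hG _ _
  · unfold HH
    exact ContDiffOn.sum fun I _ => hS G hGs I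
  · unfold HH
    exact ContDiffOn.sum fun I _ => hS G' hGs' I

theorem mxn {κ : Type*} [Fintype κ] (L : Loc w U) (hz : z ∈ U) {v : E n} (hv : v ≠ 0)
    (hk : ∀ c, levi w z v c = 0) {a : E n → Tk n k} (ha : Hol a U)
    (hs : ∀ u, ContDiffOn ℝ ∞ (fun y => a y u) U) (m : ℝ) (x x' : κ → E n)
    (hG : ∀ p q, JE z v (fun y => GG w y p q)
      (fun y => ∑ i, af z v (x i) (x' i) y p * conj (af z v (x i) (x' i) y q))) :
    mx (NC m w a) z v = ((Real.exp (-(m * w z)) * ∑ R : Fin k → κ,
      Complex.normSq (d10 (fun y => ep m w z v y *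
        a y fun s => af z v (x (R s)) (x' (R s)) y) z v) : ℝ) : ℂ) := by
  classical
  have hU := L.op
  set Gh : E n → Ix n → Ix n → ℂ := fun y p q =>
    ∑ i, af z v (x i) (x' i) y p * conj (af z v (x i) (x' i) y q) with hGh
  have hGs : ∀ p q, ContDiffOn ℝ ∞ (fun y => GG w y p q) U := by
    intro p q
    exact contDiffOn_const.mul (contDiffOn_LM hU L.sm _ _)
  have hGs' : ∀ p q, ContDiffOn ℝ ∞ (fun y => Gh y p q) U := by
    intro p q
    exact ContDiffOn.sum fun i _ => (Mxn_af_smooth z v (x i) (x' i) U p).mul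
      (Mxn_conjd (Mxn_af_smooth z v (x i) (x' i) U q))
  obtain ⟨hHJ, hHs, hHs'⟩ := Mxn_HH (G := fun y => GG w y) (G' := Gh) hU hz (v := v) hs hGs hGs' hG
  -- the weight
  have hwJ := Mxn_weight L hz hv hk m
  have hcw : ContDiffOn ℝ ∞ (fun y => -(m : ℂ) * cx w y) U :=
    contDiffOn_const.mul (contDiffOn_cx L.sm)
  have hls : ContDiffOn ℝ ∞ (fun y => -((m : ℂ) * tau z v y * d10 (cx w) z v)) U := by
    have h1 : ContDiffOn ℝ ∞ (tau z v) U := (smooth_tau z v).contDiffOn
    exact ((contDiffOn_const.mul h1).mul contDiffOn_const).neg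
  have hrs : ContDiffOn ℝ ∞ (fun y => (-((m : ℂ) * cx w z) +
      -((m : ℂ) * tau z v y * d10 (cx w) z v))
        + conj (-((m : ℂ) * tau z v y * d10 (cx w) z v))) U :=
    (contDiffOn_const.add hls).add (Mxn_conjd hls)
  have hE := Mxn_exp hU hz hcw hrs hwJ
  have hM := JE.mul hU hz hcw.cexp hrs.cexp hHs hHs' hE hHJ
  -- the holomorphic functions
  have hgd : ∀ R : Fin k → κ, DifferentiableOn ℂ (fun y => ep m w z v y *
      a y fun s => af z v (x (R s)) (x' (R s)) y) U := by
    intro R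
    have h1 : Differentiable ℂ (ep m w z v) := by
      have := tau_hol z v
      exact ((this.const_mul _).mul_const _).neg.cexp
    refine h1.differentiableOn.mul ?_
    have h2 : (fun y => a y fun s => af z v (x (R s)) (x' (R s)) y)
        = fun y => ∑ I : Fin k → Ix n, (∏ s, af z v (x (R s)) (x' (R s)) y (I s)) *
          a y (fun s => e (I s)) := by
      funext y
      exact ten_expand _ _
    rw [h2]
    refine DifferentiableOn.fun_sum fun I _ => ?_
    refine DifferentiableOn.mul ?_ (ha _)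
    have h3 : ∀ s ∈ (Finset.univ : Finset (Fin k)), DifferentiableOn ℂ
        (fun y => af z v (x (R s)) (x' (R s)) y (I s)) U := fun s _ =>
      (Mxn_af_hol z v (x (R s)) (x' (R s)) (I s)).differentiableOn
    exact Mxn_prod _ h3
  have hgs : ∀ R : Fin k → κ, ContDiffOn ℝ ∞ (fun y => ep m w z v y *
      a y fun s => af z v (x (R s)) (x' (R s)) y) U := by
    intro R
    refine hls.cexp.mul ?_
    have h2 : (fun y => a y fun s => af z v (x (R s)) (x' (R s)) y)
        = fun y => ∑ I : Fin k → Ix n, (∏ s, af z v (x (R s)) (x' (R s)) y (I s)) *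
          a y (fun s => e (I s)) := by
      funext y
      exact ten_expand _ _
    rw [h2]
    refine ContDiffOn.sum fun I _ => ?_
    refine ContDiffOn.mul ?_ (hs _)
    exact contDiffOn_prod fun s _ => Mxn_af_smooth z v (x (R s)) (x' (R s)) U (I s)
  -- the product as a sum
  have hfun : (fun y => cexp ((-((m : ℂ) * cx w z) + -((m : ℂ) * tau z v y * d10 (cx w) z v))
        + conj (-((m : ℂ) * tau z v y * d10 (cx w) z v))) * HH (Gh y) (a y))
      = fun y => ((Real.exp (-(m * w z)) : ℝ) : ℂ) * ∑ R : Fin k → κ,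
        ((fun y => ep m w z v y * a y fun s => af z v (x (R s)) (x' (R s)) y) y *
          conj ((fun y => ep m w z v y * a y fun s => af z v (x (R s)) (x' (R s)) y) y)) := by
    funext y
    rw [hh_gram (Gh y) (fun i => af z v (x i) (x' i) y) (fun p q => rfl) (a y)]
    rw [Complex.exp_add, Complex.exp_add, Complex.exp_conj]
    have h1 : cexp (-((m : ℂ) * cx w z)) = ((Real.exp (-(m * w z)) : ℝ) : ℂ) := by
      rw [Complex.ofReal_exp]
      congr 1
      simp [cx]
    have h2 : cexp (-((m : ℂ) * tau z v y * d10 (cx w) z v)) = ep m w z v y := rfl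
    rw [h1, h2, mul_assoc, mul_assoc, Finset.mul_sum, Finset.mul_sum]
    congr 1
    refine Finset.sum_congr rfl fun R _ => ?_
    rw [← Complex.mul_conj]
    simp only [map_mul]
    ring
  have hmx1 : mx (NC m w a) z v = mx (fun y => ((Real.exp (-(m * w z)) : ℝ) : ℂ) *
      ∑ R : Fin k → κ,
        ((fun y => ep m w z v y * a y fun s => af z v (x (R s)) (x' (R s)) y) y *
          conj ((fun y => ep m w z v y * a y fun s => af z v (x (R s)) (x' (R s)) y) y))) z v := by
    rw [← hfun]
    exact hM.hmx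
  have hprods : ∀ R : Fin k → κ, ContDiffOn ℝ ∞ (fun y =>
      ((fun y => ep m w z v y * a y fun s => af z v (x (R s)) (x' (R s)) y) y *
          conj ((fun y => ep m w z v y * a y fun s => af z v (x (R s)) (x' (R s)) y) y))) U :=
    fun R => (hgs R).mul (Mxn_conjd (hgs R))
  rw [hmx1, mx_const_mul hU (ContDiffOn.sum fun R _ => hprods R) hz,
    mx_sum Finset.univ _ hU (fun R _ => hprods R) hz]
  push_cast
  congr 1
  refine Finset.sum_congr rfl fun R _ => ?_
  rw [mx_hol hU hz (hgd R) (hgd R) (hgs R) (hgs R), Complex.mul_conj]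

end Pool.Agent.BOC
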