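import Pool.Agent.BOC.Defs
import Pool.Agent.BOC.Mxn
import Pool.Agent.DTW.Comm

/-!
Kml (size 4): the covariant derivative as a multilinear form of the frozen vectors.
`kml`: `ax B z v u y = u - τ(y) B u` is linear in `u`, so for every `y` the map
`u ↦ ep y * a y (fun s => ax B z v (u s) y)` is multilinear (e.g. `(a y).compLinearMap`), and `d10 (..) z v` of a family
of functions is additive and homogeneous (`d10_add`, `d10_const_mul`; all functions are
real differentiable at `z`: `ten_expand`, `hs`, `smooth_tau`). `Function.update` bookkeeping: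
`fun s => ax B z v (Function.update u i x s) y = Function.update (fun s => ax B z v (u s) y) i (ax B z v x y)`.
`kml_span`: choose `t s`, rewrite `u s = ∑ i, t s i • x i`, `MultilinearMap.map_sum`, `map_smul_univ`.
`dxx`: `ten_expand` on both sides: sums over `I` of `(∏ s, (vector field s)(y) (I s)) * a y (e ∘ I)`; the coordinates of
`ax B z v (XX w z c) y` and of `XX w y c` have the same value and the same `d10 (..) z v` at `z`
(`hB`, `tau_d10`), so the products have too (product rule, `Finset.induction_on`); and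
`d10 (ep m w z v) z v = - m * d10 (cx w) z v`, `ep m w z v z = 1` (`tau_self`).
-/

open scoped ContDiff ComplexConjugate Topology
open Complex

namespace Pool.Agent.BOC

open Pool.Agent.DTW Pool.Agent.SKF

variable {n k : ℕ} {U : Set (E n)} {w : E n → ℝ} {z : E n}

private theorem Kml_pd {κ : Type*} (s : Finset κ) (f : κ → E n → ℂ)
    (hf : ∀ i, DifferentiableAt ℝ (f i) z) : DifferentiableAt ℝ (fun y => ∏ i ∈ s, f i y) z := by
  classical
  induction s using Finset.induction_on with
  | empty => simp
  | insert j s hj ih =>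
    have e1 : (fun y => ∏ i ∈ insert j s, f i y) = fun y => f j y * ∏ i ∈ s, f i y := by
      funext y
      rw [Finset.prod_insert hj]
    rw [e1]
    exact (hf j).mul ih

private theorem Kml_prod {κ : Type*} (s : Finset κ) (f g : κ → E n → ℂ) {v : E n}
    (hf : ∀ i, DifferentiableAt ℝ (f i) z) (hg : ∀ i, DifferentiableAt ℝ (g i) z)
    (h0 : ∀ i, f i z = g i z) (h1 : ∀ i, d10 (f i) z v = d10 (g i) z v) :
    d10 (fun y => ∏ i ∈ s, f i y) z v = d10 (fun y => ∏ i ∈ s, g i y) z v := by
  classical
  induction s using Finset.induction_on with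
  | empty => simp
  | insert j s hj ih =>
    have e1 : (fun y => ∏ i ∈ insert j s, f i y) = fun y => f j y * ∏ i ∈ s, f i y := by
      funext y
      rw [Finset.prod_insert hj]
    have e2 : (fun y => ∏ i ∈ insert j s, g i y) = fun y => g j y * ∏ i ∈ s, g i y := by
      funext y
      rw [Finset.prod_insert hj]
    have d1 : DifferentiableAt ℝ (fun y => ∏ i ∈ s, f i y) z := Kml_pd s f hf
    have d2 : DifferentiableAt ℝ (fun y => ∏ i ∈ s, g i y) z := Kml_pd s g hg
    rw [e1, e2, d10_mul (hf j) d1, d10_mul (hg j) d2, ih, h0, h1]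
    simp only [h0]

private theorem Kml_diff {a : E n → Tk n k} {V : Fin k → E n → E n}
    (ha : ∀ u, DifferentiableAt ℝ (fun y => a y u) z)
    (hV : ∀ s p, DifferentiableAt ℝ (fun y => V s y p) z) :
    DifferentiableAt ℝ (fun y => a y fun s => V s y) z := by
  have e1 : (fun y => a y fun s => V s y) = fun y => ∑ I : Fin k → Ix n,
      (∏ s, V s y (I s)) * a y (fun s => e (I s)) := by
    funext y
    exact ten_expand (a y) _
  rw [e1]
  refine DifferentiableAt.fun_sum fun I _ => ?_
  exact (Kml_pd Finset.univ (fun s y => V s y (I s)) fun s => hV s (I s)).mul (ha _)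

private theorem Kml_d10 {a : E n → Tk n k} {V V' : Fin k → E n → E n} {v : E n}
    (ha : ∀ u, DifferentiableAt ℝ (fun y => a y u) z)
    (hV : ∀ s p, DifferentiableAt ℝ (fun y => V s y p) z)
    (hV' : ∀ s p, DifferentiableAt ℝ (fun y => V' s y p) z)
    (h0 : ∀ s, V s z = V' s z)
    (h1 : ∀ s p, d10 (fun y => V s y p) z v = d10 (fun y => V' s y p) z v) :
    d10 (fun y => a y fun s => V s y) z v = d10 (fun y => a y fun s => V' s y) z v := by
  have e1 : (fun y => a y fun s => V s y) = fun y => ∑ I : Fin k → Ix n,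
      (∏ s, V s y (I s)) * a y (fun s => e (I s)) := by
    funext y
    exact ten_expand (a y) _
  have e2 : (fun y => a y fun s => V' s y) = fun y => ∑ I : Fin k → Ix n,
      (∏ s, V' s y (I s)) * a y (fun s => e (I s)) := by
    funext y
    exact ten_expand (a y) _
  have dV : ∀ I : Fin k → Ix n, DifferentiableAt ℝ (fun y => ∏ s, V s y (I s)) z := fun I =>
    Kml_pd Finset.univ (fun s y => V s y (I s)) fun s => hV s (I s)
  have dV' : ∀ I : Fin k → Ix n, DifferentiableAt ℝ (fun y => ∏ s, V' s y (I s)) z := fun I =>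
    Kml_pd Finset.univ (fun s y => V' s y (I s)) fun s => hV' s (I s)
  have g1 : ∀ I : Fin k → Ix n, DifferentiableAt ℝ
      (fun y => (∏ s, V s y (I s)) * a y (fun s => e (I s))) z := fun I => (dV I).mul (ha _)
  have g2 : ∀ I : Fin k → Ix n, DifferentiableAt ℝ
      (fun y => (∏ s, V' s y (I s)) * a y (fun s => e (I s))) z := fun I => (dV' I).mul (ha _)
  rw [e1, e2, d10_sum _ _ (fun I _ => g1 I), d10_sum _ _ (fun I _ => g2 I)]
  refine Finset.sum_congr rfl fun I _ => ?_
  rw [d10_mul (dV I) (ha _), d10_mul (dV' I) (ha _)]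
  have e3 := Kml_prod (z := z) (v := v) Finset.univ (fun s y => V s y (I s))
    (fun s y => V' s y (I s)) (fun s => hV s (I s)) (fun s => hV' s (I s))
    (fun s => congrFun (h0 s) (I s)) (fun s => h1 s (I s))
  rw [e3]
  simp only [h0]

private theorem Kml_tau (z v : E n) : DifferentiableAt ℝ (tau z v) z :=
  (smooth_tau z v).contDiffAt.differentiableAt (by simp)

private theorem Kml_ax (B : Matrix (Ix n) (Ix n) ℂ) (z v x : E n) (p : Ix n) :
    DifferentiableAt ℝ (fun y => ax B z v x y p) z := by
  unfold ax af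
  exact (differentiableAt_const _).add ((Kml_tau z v).mul (differentiableAt_const _))

private theorem Kml_ep (m : ℝ) (w : E n → ℝ) (z v : E n) :
    DifferentiableAt ℝ (ep m w z v) z := by
  unfold ep
  exact (((differentiableAt_const _).mul (Kml_tau z v)).mul (differentiableAt_const _)).neg.cexp

private theorem Kml_axadd (B : Matrix (Ix n) (Ix n) ℂ) (z v x x' y : E n) :
    ax B z v (x + x') y = ax B z v x y + ax B z v x' y := by
  funext p
  simp only [ax, af, Pi.add_apply, Pi.neg_apply, Matrix.mulVec_add]
  ring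

private theorem Kml_axsmul (B : Matrix (Ix n) (Ix n) ℂ) (z v : E n) (c : ℂ) (x y : E n) :
    ax B z v (c • x) y = c • ax B z v x y := by
  funext p
  simp only [ax, af, Pi.smul_apply, Pi.neg_apply, Matrix.mulVec_smul, smul_eq_mul]
  ring

private theorem Kml_upd [DecidableEq (Fin k)] (B : Matrix (Ix n) (Ix n) ℂ) (z v : E n)
    (u : Fin k → E n) (i : Fin k) (x y : E n) :
    (fun s => ax B z v (Function.update u i x s) y)
      = Function.update (fun s => ax B z v (u s) y) i (ax B z v x y) := by
  funext s
  by_cases h : s = i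
  · subst h
    simp
  · simp [h]

private theorem Kml_fun {a : E n → Tk n k} (ha : ∀ u, DifferentiableAt ℝ (fun y => a y u) z)
    (m : ℝ) (w : E n → ℝ) (v : E n) (B : Matrix (Ix n) (Ix n) ℂ) (u : Fin k → E n) :
    DifferentiableAt ℝ (fun y => ep m w z v y * a y fun s => ax B z v (u s) y) z :=
  (Kml_ep m w z v).mul (Kml_diff ha fun s p => Kml_ax B z v (u s) p)

theorem kml (hU : IsOpen U) (hz : z ∈ U) {a : E n → Tk n k}
    (hs : ∀ u, ContDiffOn ℝ ∞ (fun y => a y u) U) (m : ℝ) (w : E n → ℝ) (v : E n)
    (B : Matrix (Ix n) (Ix n) ℂ) :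
    ∃ K : Tk n k, ∀ u : Fin k → E n,
      K u = d10 (fun y => ep m w z v y * a y fun s => ax B z v (u s) y) z v := by
  have ha : ∀ u, DifferentiableAt ℝ (fun y => a y u) z := fun u => diffAt_of hU (hs u) hz
  refine ⟨{ toFun := fun u => d10 (fun y => ep m w z v y * a y fun s => ax B z v (u s) y) z v
            map_update_add' := ?_
            map_update_smul' := ?_ }, fun u => rfl⟩
  · intro inst u i x x'
    have e1 : (fun y => ep m w z v y * a y fun s => ax B z v (Function.update u i (x + x') s) y)
        = fun y => (ep m w z v y * a y fun s => ax B z v (Function.update u i x s) y)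
          + (ep m w z v y * a y fun s => ax B z v (Function.update u i x' s) y) := by
      funext y
      rw [Kml_upd, Kml_upd, Kml_upd, Kml_axadd, (a y).map_update_add, mul_add]
    rw [e1, d10_add (Kml_fun ha m w v B _) (Kml_fun ha m w v B _)]
  · intro inst u i c x
    have e1 : (fun y => ep m w z v y * a y fun s => ax B z v (Function.update u i (c • x) s) y)
        = fun y => c * (ep m w z v y * a y fun s => ax B z v (Function.update u i x s) y) := by
      funext y
      rw [Kml_upd, Kml_upd, Kml_axsmul, (a y).map_update_smul, smul_eq_mul]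
      ring
    rw [e1, d10_const_mul (Kml_fun ha m w v B _), smul_eq_mul]

theorem kml_span (K : Tk n k) {r : ℕ} (x : Fin r → E n)
    (h : ∀ R : Fin k → Fin r, K (fun s => x (R s)) = 0) (u : Fin k → E n)
    (hu : ∀ s, ∃ t : Fin r → ℂ, u s = ∑ i, t i • x i) : K u = 0 := by
  choose t ht using hu
  have e1 : u = fun s => ∑ i, t s i • x i := funext ht
  rw [e1, K.map_sum]
  refine Finset.sum_eq_zero fun R _ => ?_
  rw [K.map_smul_univ (fun s => t s (R s)) (fun s => x (R s)), h R, smul_zero]

theorem dxx (L : Loc w U) (hz : z ∈ U) {v : E n} (hv : v ≠ 0) {a : E n → Tk n k}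
    (hs : ∀ u, ContDiffOn ℝ ∞ (fun y => a y u) U) (m : ℝ) (B : Matrix (Ix n) (Ix n) ℂ)
    (hB : ∀ c p, d10 (fun y => XX w y c p) z v = -(B.mulVec (XX w z c)) p) (cs : Fin k → E n) :
    d10 (fun y => ep m w z v y * a y fun s => ax B z v (XX w z (cs s)) y) z v
      = d10 (fun y => a y fun s => XX w y (cs s)) z v
        - m * d10 (cx w) z v * a z (fun s => XX w z (cs s)) := by
  have ha : ∀ u, DifferentiableAt ℝ (fun y => a y u) z := fun u => diffAt_of L.op (hs u) hz
  have hVd : ∀ s p, DifferentiableAt ℝ (fun y => ax B z v (XX w z (cs s)) y p) z :=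
    fun s p => Kml_ax B z v _ p
  have hXd : ∀ s p, DifferentiableAt ℝ (fun y => XX w y (cs s) p) z := by
    intro s p
    unfold XX
    refine (differentiableAt_const _).mul (DifferentiableAt.fun_sum fun j _ => ?_)
    exact (diffAt_of L.op (contDiffOn_LM L.op L.sm _ _) hz).mul (differentiableAt_const _)
  have h0 : ∀ s, ax B z v (XX w z (cs s)) z = XX w z (cs s) := by
    intro s
    funext p
    simp only [ax, af, tau_self, zero_mul, add_zero]
  have h1 : ∀ s p, d10 (fun y => ax B z v (XX w z (cs s)) y p) z v
      = d10 (fun y => XX w y (cs s) p) z v := by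
    intro s p
    rw [hB]
    unfold ax af
    have g1 : DifferentiableAt ℝ (fun y => tau z v y * (-(B.mulVec (XX w z (cs s)))) p) z :=
      (Kml_tau z v).mul (differentiableAt_const _)
    rw [d10_add (differentiableAt_const _) g1, d10_const,
      d10_mul (f := tau z v) (g := fun _ => (-(B.mulVec (XX w z (cs s)))) p) (Kml_tau z v)
        (differentiableAt_const _), d10_const, tau_d10 z hv]
    simp
  have h2 := Kml_d10 (a := a) (V := fun s y => ax B z v (XX w z (cs s)) y)
    (V' := fun s y => XX w y (cs s)) (v := v) ha hVd hXd h0 h1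
  have h3 : ep m w z v z = 1 := by
    simp only [ep, tau_self, mul_zero, zero_mul, neg_zero, Complex.exp_zero]
  have h4 : d10 (ep m w z v) z v = -((m : ℂ) * d10 (cx w) z v) := by
    have e1 : ep m w z v = fun y => cexp ((-((m : ℂ) * d10 (cx w) z v)) * tau z v y) := by
      funext y
      unfold ep
      congr 1
      ring
    have g1 : DifferentiableAt ℝ (fun y => (-((m : ℂ) * d10 (cx w) z v)) * tau z v y) z :=
      (differentiableAt_const _).mul (Kml_tau z v)
    rw [e1, d10_exp g1, d10_const_mul (Kml_tau z v), tau_d10 z hv, tau_self]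
    simp
  rw [d10_mul (Kml_ep m w z v) (Kml_diff ha hVd), h2, h3, h4]
  simp only [h0]
  ring

end Pool.Agent.BOC
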