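import Pool.Agent.BOC.Mai

/-!
The length function of a holomorphic tensor is constant along the null directions.
-/

open scoped ContDiff ComplexConjugate Topology
open Complex MeasureTheory

namespace Pool.Agent.BOC

open Pool.Agent.DTW Pool.Agent.SKF

variable {n k : ℕ}

theorem Len_GG (w : E n → ℝ) (z : E n) (p q : Ix n) :
    GG w z p q = sg q * XX w z (e q.swap) p := by
  have h1 : ∑ j : Ix n, LM w z p.swap j * conj ((e q.swap : E n) j) = LM w z p.swap q.swap := by
    rw [Finset.sum_eq_single q.swap]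
    · simp [e]
    · intro j _ hj
      simp [e, Pi.single_apply, hj]
    · intro h
      exact absurd (Finset.mem_univ _) h
  unfold GG XX
  rw [h1]
  ring

theorem Len_HH (w : E n → ℝ) (z : E n) (a : Tk n k) :
    HH (GG w z) a = ∑ J : Fin k → Ix n, (∏ s, sg (J s)) * (conj (a fun s => e (J s))
      * a fun s => XX w z (e (J s).swap)) := by
  unfold HH
  rw [Finset.sum_comm]
  refine Finset.sum_congr rfl fun J _ => ?_
  rw [ten_expand a (fun s => XX w z (e (J s).swap)), Finset.mul_sum, Finset.mul_sum]
  refine Finset.sum_congr rfl fun I _ => ?_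
  have h1 : ∏ s, GG w z (I s) (J s)
      = (∏ s, sg (J s)) * ∏ s, XX w z (e (J s).swap) (I s) := by
    rw [← Finset.prod_mul_distrib]
    exact Finset.prod_congr rfl fun s _ => Len_GG w z (I s) (J s)
  rw [h1]
  ring

theorem Len_smooth {U : Set (E n)} {w : E n → ℝ} (L : Loc w U) {a : E n → Tk n k}
    (hs : ∀ u, ContDiffOn ℝ ∞ (fun y => a y u) U) (cs : Fin k → E n) :
    ContDiffOn ℝ ∞ (fun y => a y fun s => XX w y (cs s)) U := by
  have h1 : (fun y => a y fun s => XX w y (cs s)) = fun y => ∑ I : Fin k → Ix n,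
      (∏ s, XX w y (cs s) (I s)) * a y fun s => e (I s) := by
    funext y
    exact ten_expand (a y) _
  rw [h1]
  refine ContDiffOn.sum fun I _ => ContDiffOn.mul ?_ (hs _)
  refine contDiffOn_prod fun s _ => ?_
  unfold XX
  exact contDiffOn_const.mul (ContDiffOn.sum fun j _ =>
    (contDiffOn_LM L.op L.sm _ _).mul contDiffOn_const)

theorem Len_nc {U : Set (E n)} {w : E n → ℝ} (L : Loc w U) {a : E n → Tk n k} (ha : Hol a U)
    {m : ℝ} {z v : E n} (hz : z ∈ U)
    (h : ∀ cs : Fin k → E n, d10 (fun y => a y fun s => XX w y (cs s)) z v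
      = m * d10 (cx w) z v * a z fun s => XX w z (cs s)) :
    d10 (NC m w a) z v = 0 := by
  have hs : ∀ u, ContDiffOn ℝ ∞ (fun y => a y u) U := fun u => hol_smooth L.op (ha u)
  have h1 : NC m w a = fun y => cexp (-((m : ℂ) * cx w y)) * ∑ J : Fin k → Ix n,
      (∏ s, sg (J s)) * (conj (a y fun s => e (J s)) * a y fun s => XX w y (e (J s).swap)) := by
    funext y
    unfold NC
    rw [Len_HH, neg_mul]
  have dw : DifferentiableAt ℝ (cx w) z := diffAt_of L.op (contDiffOn_cx L.sm) hz
  have dmw : DifferentiableAt ℝ (fun y => (m : ℂ) * cx w y) z := (differentiableAt_const _).mul dw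
  have de : DifferentiableAt ℝ (fun y => -((m : ℂ) * cx w y)) z := dmw.neg
  have dE : DifferentiableAt ℝ (fun y => cexp (-((m : ℂ) * cx w y))) z := de.cexp
  have da : ∀ J : Fin k → Ix n, DifferentiableAt ℝ (fun y => a y fun s => e (J s)) z := fun J =>
    diffAt_of L.op (hs _) hz
  have dca : ∀ J : Fin k → Ix n,
      DifferentiableAt ℝ (fun y => conj (a y fun s => e (J s))) z := fun J =>
    (Complex.conjCLE.differentiableAt).comp z (da J)
  have dx : ∀ J : Fin k → Ix n,
      DifferentiableAt ℝ (fun y => a y fun s => XX w y (e (J s).swap)) z := fun J =>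
    diffAt_of L.op (Len_smooth L hs _) hz
  have dp : ∀ J : Fin k → Ix n, DifferentiableAt ℝ (fun y => conj (a y fun s => e (J s))
      * a y fun s => XX w y (e (J s).swap)) z := fun J => (dca J).mul (dx J)
  have dq : ∀ J : Fin k → Ix n, DifferentiableAt ℝ (fun y => (∏ s, sg (J s))
      * (conj (a y fun s => e (J s)) * a y fun s => XX w y (e (J s).swap))) z := fun J =>
    (differentiableAt_const _).mul (dp J)
  have dS : DifferentiableAt ℝ (fun y => ∑ J : Fin k → Ix n, (∏ s, sg (J s))
      * (conj (a y fun s => e (J s)) * a y fun s => XX w y (e (J s).swap))) z :=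
    DifferentiableAt.fun_sum fun J _ => dq J
  have h2 : d10 (fun y => -((m : ℂ) * cx w y)) z v = -((m : ℂ) * d10 (cx w) z v) := by
    have h3 : (fun y => -((m : ℂ) * cx w y)) = fun y => (-(m : ℂ)) * cx w y := by
      funext y
      ring
    rw [h3, d10_const_mul dw]
    ring
  have h4 : ∀ J : Fin k → Ix n, d10 (fun y => (∏ s, sg (J s))
      * (conj (a y fun s => e (J s)) * a y fun s => XX w y (e (J s).swap))) z v
      = m * d10 (cx w) z v * ((∏ s, sg (J s))
        * (conj (a z fun s => e (J s)) * a z fun s => XX w z (e (J s).swap))) := by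
    intro J
    have h5 : DifferentiableAt ℂ (fun y => a y fun s => e (J s)) z :=
      ((ha _) z hz).differentiableAt (L.op.mem_nhds hz)
    rw [d10_const_mul (dp J), d10_mul (dca J) (dx J), d10_conj (da J), d01_of_diff h5, map_zero,
      h fun s => e (J s).swap]
    ring
  rw [h1, d10_mul dE dS, d10_exp de, h2, d10_sum _ _ fun J _ => dq J,
    Finset.sum_congr rfl fun J _ => h4 J, ← Finset.mul_sum]
  ring

end Pool.Agent.BOC
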