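import Pool.Agent.BOC.Defs
import Pool.Agent.BOC.Ten
import Pool.Agent.BOC.Grg
import Pool.Agent.BOC.Chn
import Pool.Agent.BOC.Hsm
import Pool.Agent.SKF.LvA

/-!
Nsm (size 3): smoothness of the length function.
`nc_smooth`: finite sums and products (`contDiffOn_LM`, `contDiffOn_cx`, `hol_smooth`).
`nc_real`: `grg` and `hh_gram`: `HH` is a sum of real numbers, `len_real` of DTW.Main for the exponential.
`vt_NX`, `sm_NX`: `nc_chart` and `mem_ix`, as `vt_len`, `Sm_len` in DTW.Main.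
-/

open scoped ContDiff ComplexConjugate Topology
open Complex

namespace Pool.Agent.BOC

open Pool.Agent.DTW Pool.Agent.SKF

variable {n k : ℕ} {U : Set (E n)} {w : E n → ℝ} {z : E n}

theorem nc_smooth (L : Loc w U) {a : E n → Tk n k} (ha : Hol a U) (m : ℝ) :
    ContDiffOn ℝ ∞ (NC m w a) U := by
  have h1 : ContDiffOn ℝ ∞ (fun z => cexp (-(m : ℂ) * cx w z)) U :=
    (contDiffOn_const.mul (contDiffOn_cx L.sm)).cexp
  have h2 : ∀ p q : Ix n, ContDiffOn ℝ ∞ (fun z => GG w z p q) U := fun p q =>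
    contDiffOn_const.mul (contDiffOn_LM L.op L.sm _ _)
  have h3 : ∀ u : Fin k → E n, ContDiffOn ℝ ∞ (fun z => a z u) U := fun u =>
    hol_smooth L.op (ha u)
  have h4 : ∀ u : Fin k → E n, ContDiffOn ℝ ∞ (fun z => conj (a z u)) U := fun u =>
    Complex.conjCLE.contDiff.comp_contDiffOn (h3 u)
  have h5 : ContDiffOn ℝ ∞ (fun z => HH (GG w z) (a z)) U := by
    unfold HH
    refine ContDiffOn.sum fun I _ => ContDiffOn.sum fun J _ => ?_
    exact ((contDiffOn_prod fun s _ => h2 (I s) (J s)).mul (h3 _)).mul (h4 _)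
  exact h1.mul h5

theorem nc_real (L : Loc w U) (hz : z ∈ U) (a : E n → Tk n k) (m : ℝ) :
    NC m w a z = (((NC m w a z).re : ℝ) : ℂ) := by
  obtain ⟨r, c, hG⟩ := grg (L.psd z hz)
  have h1 : NC m w a z = ((Real.exp (-(m * w z)) *
      ∑ R : Fin k → Fin r, Complex.normSq (a z fun s => XX w z (c (R s))) : ℝ) : ℂ) := by
    unfold NC
    rw [len_real, hh_gram (GG w z) (fun i => XX w z (c i)) hG (a z), Complex.ofReal_mul,
      Complex.ofReal_sum]
  rw [h1, Complex.ofReal_re]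

section global

variable {X : Type*} [TopologicalSpace X] {ι : Type*} {A : Atlas n X ι}

theorem vt_NX (B : Bundle A) (L : ∀ i, Loc (B.wt i) (A.c i).target) {m : ℤ}
    {α : ι → X → Tk n k} (hα : IsTensor B m k α) (i : ι) {z : E n} (hz : z ∈ (A.c i).target) :
    vt A (NX B m α) i z = (NC (m : ℝ) (B.wt i) (ta A α i) z).re := by
  have h := nc_chart B L hα (mem_ix A ((A.c i).symm z)) ((A.c i).map_target hz)
  rw [(A.c i).right_inv hz] at h
  unfold vt NX
  rw [h]

theorem sm_NX (B : Bundle A) (L : ∀ i, Loc (B.wt i) (A.c i).target) {m : ℤ}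
    {α : ι → X → Tk n k} (hα : IsTensor B m k α) : Sm A (NX B m α) := by
  intro i
  have h1 : ContDiffOn ℝ ∞ (NC (m : ℝ) (B.wt i) (ta A α i)) (A.c i).target :=
    nc_smooth (L i) (fun u => hα.hol i u) (m : ℝ)
  have h2 : ContDiffOn ℝ ∞ (fun z => (NC (m : ℝ) (B.wt i) (ta A α i) z).re) (A.c i).target :=
    Complex.reCLM.contDiff.comp_contDiffOn h1
  exact h2.congr fun z hz => vt_NX B L hα i hz

end global

end Pool.Agent.BOC
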