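import Pool.Agent.BOC.Gjt
import Pool.Agent.BOC.Mxn
import Pool.Agent.BOC.Kml
import Pool.Agent.BOC.Nsm

/-!
Mai (size 5): the Bochner principle.
`loc_all`: `Loc (B.wt i) target` from `psd_of_levi`, `iso_all` of DTW.Main, `B.smooth`.
`pn`: fix `i`, `z`, `w = B.wt i`, `a = ta A α i`, `x l = XX w z (c l)` from `grg`. `QQ F V = ∑ GG * V`, so
`QQ (LM w z) (LM N z) = ∑ l, ∑ p q, x l p * conj (x l q) * LM N z p q = ∑ l, levi N z (x l) (x l)` (`levi_eq_sum`), where
`N = vt A (NX B m α) i`, and `levi N z v v = mx (cx N) z v` (`rfl`), `cx N = NC m w a` near `z`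
(`vt_NX`, `nc_real`, `mx_congr`). If `x l = 0` the term is `0` (`levi_eq_sum`); otherwise `gjt` and `mxn` (with `levi_XX`
of DTW.Main: `XX` is in the kernel) give a real number `≥ 0`.
`mai`: `P B (NX ..) x ≥ 0` for every `x` (`P_eq`), `int_P`, `continuous_P`, `zero_of_integral` (as in
`main_vanish` of DTW.Main): so at `z` every term is `0`: for every `l` with `x l ≠ 0` all
`d10 (ep * a (u_R)) z (x l) = 0`; for `R` with values in `Fin r` (`Sum.inl ∘ R`) the vectors are `ax B z v (x (R s)) y`.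
`kml`, `kml_span`, `xx_span`: the form `K` vanishes on all `XX w z (cs s)`; `dxx`: the formula for `v = x l` (trivial if
`x l = 0`: `d10_zero_vec`). Both sides are linear in `v` (`d10_add_vec`, `d10_smul_vec`, finite sums) and
`XX w z b` is in the span of the `x l` (`xx_span`).
-/

open scoped ContDiff ComplexConjugate Topology
open Complex MeasureTheory

namespace Pool.Agent.BOC

open Pool.Agent.DTW Pool.Agent.SKF

variable {n k : ℕ} {X : Type*} [TopologicalSpace X] {ι : Type*} {A : Atlas n X ι}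
  [MeasurableSpace X] [BorelSpace X] [T2Space X] [CompactSpace X] {μ : Measure X}

theorem loc_all (hμ : A.IsVolume μ) (B : Bundle A) (hsp : B.Semipositive) (hq : Para B μ)
    (i : ι) : Loc (B.wt i) (A.c i).target where
  op := (A.c i).open_target
  sm := B.smooth i
  psd := fun _ hz => psd_of_levi (A.c i).open_target (B.smooth i) hz (hsp i _ hz)
  iso := iso_all hμ B hsp hq i

theorem mai_lin (f : E n → ℂ) (z : E n) {r : ℕ} (t : Fin r → ℂ) (x : Fin r → E n) :
    d10 f z (∑ i, t i • x i) = ∑ i, t i * d10 f z (x i) := by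
  let L : E n →+ ℂ :=
    { toFun := fun v => d10 f z v, map_zero' := d10_zero_vec f z, map_add' := d10_add_vec f z }
  have h : L (∑ i, t i • x i) = ∑ i, L (t i • x i) := map_sum L _ _
  have h2 : ∀ v, L v = d10 f z v := fun v => rfl
  rw [h2] at h
  rw [h]
  refine Finset.sum_congr rfl fun i _ => ?_
  rw [h2, d10_smul_vec]

theorem mai_loc {U : Set (E n)} {w : E n → ℝ} {z : E n} (L : Loc w U) (hz : z ∈ U)
    {a : E n → Tk n k} (ha : Hol a U) (m : ℝ) (N : E n → ℝ) (hN : ContDiffOn ℝ ∞ N U)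
    (hNC : ∀ y ∈ U, cx N y = NC m w a y) :
    ∃ R : ℝ, QQ (LM w z) (LM N z) = (R : ℂ) ∧ 0 ≤ R ∧ (R = 0 → ∀ (b : E n) (cs : Fin k → E n),
      d10 (fun y => a y fun s => XX w y (cs s)) z (XX w z b)
        = m * d10 (cx w) z (XX w z b) * a z (fun s => XX w z (cs s))) := by
  have hs : ∀ u, ContDiffOn ℝ ∞ (fun y => a y u) U := fun u => hol_smooth L.op (ha u)
  obtain ⟨r, c, hG⟩ := grg (L.psd z hz)
  have hNz : ContDiffAt ℝ ∞ N z := hN.contDiffAt (L.op.mem_nhds hz)
  have hQ : QQ (LM w z) (LM N z)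
      = ∑ l : Fin r, levi N z (XX w z (c l)) (XX w z (c l)) := by
    have h1 : ∀ p q, sg p * sg q * LM w z p.swap q.swap
        = ∑ i, XX w z (c i) p * conj (XX w z (c i) q) := fun p q => hG p q
    unfold QQ
    simp only [h1, levi_eq_sum hNz, Finset.sum_mul]
    have h2 : ∀ F : Ix n → Ix n → Fin r → ℂ,
        ∑ p, ∑ q, ∑ i, F p q i = ∑ i, ∑ p, ∑ q, F p q i := by
      intro F
      have h3 : ∀ p, ∑ q, ∑ i, F p q i = ∑ i, ∑ q, F p q i := fun p => Finset.sum_comm
      rw [Finset.sum_congr rfl (fun p _ => h3 p)]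
      exact Finset.sum_comm
    exact h2 _
  have hT : ∀ l : Fin r, ∃ T : ℝ, levi N z (XX w z (c l)) (XX w z (c l)) = (T : ℂ) ∧ 0 ≤ T ∧
      (T = 0 → XX w z (c l) ≠ 0 → ∃ B : Matrix (Ix n) (Ix n) ℂ,
        (∀ c' p, d10 (fun y => XX w y c' p) z (XX w z (c l)) = -(B.mulVec (XX w z c')) p) ∧
        ∀ R : Fin k → Fin r, d10 (fun y => ep m w z (XX w z (c l)) y *
          a y fun s => ax B z (XX w z (c l)) (XX w z (c (R s))) y) z (XX w z (c l)) = 0) := by
    intro l
    by_cases hv : XX w z (c l) = 0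
    · refine ⟨0, ?_, le_refl _, fun _ h => absurd hv h⟩
      rw [hv]
      simp only [Complex.ofReal_zero]
      exact d10_zero_vec _ _
    · obtain ⟨B, q, h, hB1, hB2⟩ := gjt L hz (c l) hv
      have hJ := hB2 r (fun i => XX w z (c i)) hG
      have hm := mxn L hz hv (levi_XX_left L hz (c l)) ha hs m
        (Sum.elim (fun i => XX w z (c i)) fun _ => 0)
        (Sum.elim (fun i => -(B.mulVec (XX w z (c i)))) h) hJ
      have he : levi N z (XX w z (c l)) (XX w z (c l)) = mx (NC m w a) z (XX w z (c l)) := by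
        have h1 : levi N z (XX w z (c l)) (XX w z (c l)) = mx (cx N) z (XX w z (c l)) := rfl
        rw [h1]
        apply mx_congr
        filter_upwards [L.op.mem_nhds hz] with y hy
        exact hNC y hy
      refine ⟨_, he.trans hm, mul_nonneg (Real.exp_pos _).le
        (Finset.sum_nonneg fun _ _ => Complex.normSq_nonneg _), fun h0 _ => ⟨B, hB1, fun R => ?_⟩⟩
      have h1 := (mul_eq_zero.1 h0).resolve_left (Real.exp_pos _).ne'
      have h2 := (Finset.sum_eq_zero_iff_of_nonneg
        (fun _ _ => Complex.normSq_nonneg _)).1 h1 (fun s => Sum.inl (R s)) (Finset.mem_univ _)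
      exact Complex.normSq_eq_zero.1 h2
  choose T hT1 hT2 hT3 using hT
  refine ⟨∑ l, T l, ?_, Finset.sum_nonneg fun l _ => hT2 l, ?_⟩
  · rw [hQ, Complex.ofReal_sum]
    exact Finset.sum_congr rfl fun l _ => hT1 l
  · intro h0 b cs
    have hT0 : ∀ l, T l = 0 := fun l =>
      (Finset.sum_eq_zero_iff_of_nonneg (fun l _ => hT2 l)).1 h0 l (Finset.mem_univ _)
    have hD : ∀ l, d10 (fun y => a y fun s => XX w y (cs s)) z (XX w z (c l))
        = m * d10 (cx w) z (XX w z (c l)) * a z (fun s => XX w z (cs s)) := by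
      intro l
      by_cases hv : XX w z (c l) = 0
      · rw [hv, d10_zero_vec, d10_zero_vec]
        ring
      · obtain ⟨B, hB1, hR⟩ := hT3 l (hT0 l) hv
        obtain ⟨K, hK⟩ := kml L.op hz hs m w (XX w z (c l)) B
        have h1 := kml_span K (fun i => XX w z (c i)) (fun R => by rw [hK]; exact hR R)
          (fun s => XX w z (cs s)) (fun s => xx_span hG (cs s))
        rw [hK, dxx L hz hv hs m B hB1 cs] at h1
        linear_combination h1
    obtain ⟨t, ht⟩ := xx_span hG b
    rw [ht, mai_lin, mai_lin, Finset.mul_sum, Finset.sum_mul]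
    refine Finset.sum_congr rfl fun l _ => ?_
    rw [hD l]
    ring

theorem mai (hμ : A.IsVolume μ) (B : Bundle A) (hsp : B.Semipositive) (hq : Para B μ)
    {m : ℤ} {α : ι → X → Tk n k} (hα : IsTensor B m k α) (i : ι) {z : E n}
    (hz : z ∈ (A.c i).target) (b : E n) (cs : Fin k → E n) :
    d10 (fun y => ta A α i y fun s => XX (B.wt i) y (cs s)) z (XX (B.wt i) z b)
      = m * d10 (cx (B.wt i)) z (XX (B.wt i) z b)
        * ta A α i z (fun s => XX (B.wt i) z (cs s)) := by
  have LL : ∀ i, Loc (B.wt i) (A.c i).target := fun i => loc_all hμ B hsp hq i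
  have hS : Sm A (NX B m α) := sm_NX B LL hα
  have key := fun (i : ι) (z : E n) (hz : z ∈ (A.c i).target) =>
    mai_loc (LL i) hz (a := ta A α i) (fun u => hα.hol i u) (m : ℝ) (vt A (NX B m α) i) (hS i)
      (fun y hy => by
        have h1 : cx (vt A (NX B m α) i) y = ((vt A (NX B m α) i y : ℝ) : ℂ) := rfl
        rw [h1, vt_NX B LL hα i hy]
        exact (nc_real (LL i) hy (ta A α i) m).symm)
  have hpos : ∀ x, 0 ≤ P B (NX B m α) x := by
    intro x
    rw [P_eq B hS (mem_ix A x)]
    obtain ⟨R, h1, h2, _⟩ := key (ix A x) _ ((A.c _).map_source (mem_ix A x))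
    rw [h1, Complex.ofReal_re]
    exact h2
  have hzero := zero_of_integral hμ (continuous_P B hS) hpos (int_P hμ B hS) ((A.c i).symm z)
  rw [P_eq B hS ((A.c i).map_target hz), (A.c i).right_inv hz] at hzero
  obtain ⟨R, h1, _, h3⟩ := key i z hz
  rw [h1, Complex.ofReal_re] at hzero
  have h4 := h3 hzero b cs
  rw [Complex.ofReal_intCast] at h4
  exact h4

end Pool.Agent.BOC
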