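import Pool.Agent.BOC.Len
import Pool.Agent.CIS.Lex
import Pool.Agent.CIS.Cut
import Pool.Agent.CIS.Qaa

/-!
The Bochner principle for holomorphic tensors on the complement of the divisor of a section of a
power of the bundle, with arbitrary singularities along the divisor.
-/

open scoped ContDiff ComplexConjugate Topology
open Complex MeasureTheory

namespace Pool.Agent.BOC

open Pool.Agent.DTW Pool.Agent.SKF Pool.Agent.CIS

variable {n k : ℕ} {X : Type*} [TopologicalSpace X] {ι : Type*} {A : Atlas n X ι}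

/-- a holomorphic section of `(T^*X)^(⊗k) ⊗ L^m` on the complement of the zero set of `s` -/
structure IsTensorOff (B : Bundle A) (s : ι → X → ℂ) (m : ℤ) (k : ℕ) (α : ι → X → Tk n k) :
    Prop where
  trans : ∀ i j x, x ∈ Off A s → x ∈ (A.c i).source → x ∈ (A.c j).source → ∀ v : Fin k → E n,
    α i x v = B.g i j x ^ m * α j x fun s => fderiv ℂ (A.c j ∘ (A.c i).symm) (A.c i x) (v s)
  hol : ∀ i, ∀ v : Fin k → E n,
    DifferentiableOn ℂ (fun z => α i ((A.c i).symm z) v) (Ou A s i)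

theorem Off_exp (g : ℂ) (hg : g ≠ 0) (m : ℤ) (w : ℝ) :
    cexp (-((m : ℝ) : ℂ) * ((w + 2 * Real.log ‖g‖ : ℝ) : ℂ)) * (g ^ m * conj (g ^ m))
      = cexp (-((m : ℝ) : ℂ) * (w : ℂ)) := by
  have h0 : 0 < ‖g‖ := norm_pos_iff.2 hg
  have h1 : g ^ m * conj (g ^ m) = ((‖g‖ ^ (2 * m) : ℝ) : ℂ) := by
    rw [Complex.mul_conj, Complex.normSq_eq_norm_sq, norm_zpow, ← zpow_natCast, ← zpow_mul]
    congr 2
    push_cast
    ring
  have h2 : ‖g‖ ^ (2 * m) = Real.exp ((2 * m : ℤ) * Real.log ‖g‖) := by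
    rw [← Real.log_zpow, Real.exp_log (zpow_pos h0 _)]
  rw [h1, h2, Complex.ofReal_exp, ← Complex.exp_add]
  congr 1
  push_cast
  ring

theorem Off_chart (B : Bundle A) (L : ∀ i, Loc (B.wt i) (A.c i).target) {m : ℤ}
    {α : ι → X → Tk n k} {i j : ι} {x : X} (hi : x ∈ (A.c i).source)
    (hj : x ∈ (A.c j).source) (htr : ∀ v : Fin k → E n,
      α i x v = B.g i j x ^ m * α j x fun s => fderiv ℂ (A.c j ∘ (A.c i).symm) (A.c i x) (v s)) :
    NC (m : ℝ) (B.wt i) (ta A α i) (A.c i x) = NC (m : ℝ) (B.wt j) (ta A α j) (A.c j x) := by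
  have hz : A.c i x ∈ (A.c i).target := (A.c i).map_source hi
  have hzU : A.c i x ∈ Uo A i j := mem_Uo hi hj
  obtain ⟨r, c, hG⟩ := grg ((L i).psd _ hz)
  have hG2 := ggc B hzU (fun l => XX (B.wt i) (A.c i x) (c l)) hG
  have e1 := hh_gram (GG (B.wt i) (A.c i x)) (fun l => XX (B.wt i) (A.c i x) (c l)) hG
    (ta A α i (A.c i x))
  have e2 := hh_gram (GG (B.wt j) (ph A i j (A.c i x)))
    (fun l => fderiv ℂ (ph A i j) (A.c i x) (XX (B.wt i) (A.c i x) (c l))) hG2
    (ta A α j (A.c j x))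
  rw [ph_chart hi] at e2
  unfold NC
  rw [e1, e2, Finset.mul_sum, Finset.mul_sum]
  refine Finset.sum_congr rfl (fun R _ => ?_)
  have hti : ta A α i (A.c i x) = α i x := by
    unfold ta
    rw [(A.c i).left_inv hi]
  have htj : ta A α j (A.c j x) = α j x := by
    unfold ta
    rw [(A.c j).left_inv hj]
  have hwi : cx (B.wt i) (A.c i x) = ((B.w j x + 2 * Real.log ‖B.g i j x‖ : ℝ) : ℂ) := by
    show ((B.w i ((A.c i).symm (A.c i x)) : ℝ) : ℂ) = _
    rw [(A.c i).left_inv hi, B.trans i j x hi hj]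
  have hwj : cx (B.wt j) (A.c j x) = ((B.w j x : ℝ) : ℂ) := by
    show ((B.w j ((A.c j).symm (A.c j x)) : ℝ) : ℂ) = _
    rw [(A.c j).left_inv hj]
  have htr' := htr (fun s => XX (B.wt i) (A.c i x) (c (R s)))
  have e3 := Off_exp (B.g i j x) (B.ne i j x hi hj) m (B.w j x)
  rw [hti, htj, hwi, hwj, htr', map_mul, Complex.ofReal_mul, ← e3, Complex.mul_conj]
  have h9 : (fun s => fderiv ℂ (A.c j ∘ (A.c i).symm) (A.c i x) (XX (B.wt i) (A.c i x) (c (R s))))
      = fun s => fderiv ℂ (ph A i j) (A.c i x) (XX (B.wt i) (A.c i x) (c (R s))) := rfl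
  rw [h9]
  ring

variable {B : Bundle A} {m' m : ℤ} {s : ι → X → ℂ} {α : ι → X → Tk n k}

theorem Off_vt (L : ∀ i, Loc (B.wt i) (A.c i).target)
    (hα : IsTensorOff B s m k α) (i : ι) {z : E n} (hz : z ∈ Ou A s i) :
    vt A (NX B m α) i z = (NC (m : ℝ) (B.wt i) (ta A α i) z).re := by
  have h := Off_chart B L (α := α) (m := m) (mem_ix A ((A.c i).symm z)) ((A.c i).map_target hz.1)
    (hα.trans _ _ _ hz.2 (mem_ix A ((A.c i).symm z)) ((A.c i).map_target hz.1))
  rw [(A.c i).right_inv hz.1] at h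
  unfold vt NX
  rw [h]

theorem Off_Loc (L : ∀ i, Loc (B.wt i) (A.c i).target) (hs : B.IsSection m' s) (i : ι) :
    Loc (B.wt i) (Ou A s i) where
  op := isOpen_Ou hs i
  sm := (B.smooth i).mono (Ou_subset i)
  psd := fun z hz => (L i).psd z hz.1
  iso := fun z hz => (L i).iso z hz.1

theorem Off_sm (L : ∀ i, Loc (B.wt i) (A.c i).target) (hs : B.IsSection m' s)
    (hα : IsTensorOff B s m k α) : SmOff A s (NX B m α) := by
  intro i
  have h1 : ContDiffOn ℝ ∞ (NC (m : ℝ) (B.wt i) (ta A α i)) (Ou A s i) :=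
    nc_smooth (Off_Loc L hs i) (fun u => hα.hol i u) (m : ℝ)
  have h2 : ContDiffOn ℝ ∞ (fun z => (NC (m : ℝ) (B.wt i) (ta A α i) z).re) (Ou A s i) :=
    Complex.reCLM.contDiff.comp_contDiffOn h1
  exact h2.congr fun z hz => Off_vt L hα i hz

variable [MeasurableSpace X] [BorelSpace X] [T2Space X] [CompactSpace X] {μ : Measure X}

theorem Off_mai (hμ : A.IsVolume μ) (hsp : B.Semipositive) (hq : Para B μ)
    (hs : B.IsSection m' s) (hol : B.IsHol s) (hα : IsTensorOff B s m k α) (i : ι) {z : E n}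
    (hz : z ∈ Ou A s i) (b : E n) (cs : Fin k → E n) :
    d10 (fun y => ta A α i y fun s => XX (B.wt i) y (cs s)) z (XX (B.wt i) z b)
      = m * d10 (cx (B.wt i)) z (XX (B.wt i) z b)
        * ta A α i z (fun s => XX (B.wt i) z (cs s)) := by
  have L : ∀ i, Loc (B.wt i) (A.c i).target := fun i => loc_all hμ B hsp hq i
  have hN : SmOff A s (NX B m α) := Off_sm L hs hα
  have key := fun (i : ι) (z : E n) (hz : z ∈ Ou A s i) =>
    mai_loc (Off_Loc L hs i) hz (a := ta A α i) (fun u => hα.hol i u) (m : ℝ)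
      (vt A (NX B m α) i) (hN i)
      (fun y hy => by
        have h1 : cx (vt A (NX B m α) i) y = ((vt A (NX B m α) i y : ℝ) : ℂ) := rfl
        rw [h1, Off_vt L hα i hy]
        exact (nc_real (Off_Loc L hs i) hy (ta A α i) m).symm)
  set c : ℝ := psi B m' s ((A.c i).symm z) - 1 with hc
  set v : X → ℝ := ext B m' s (cut c) (NX B m α) with hv
  have hS : Sm A v := Sm_ext hs (contDiff_cut c) (fun x hx => cut_zero hx) hN
  have hval : ∀ i' z', z' ∈ Ou A s i' → ∃ R : ℝ,
      QQ (LM (B.wt i') z') (LM (vt A (NX B m α) i') z') = (R : ℂ) ∧ 0 ≤ R ∧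
      P B v ((A.c i').symm z') = cut c (lp (m' : ℝ) (B.wt i') (st A s i') z') * R := by
    intro i' z' hz'
    obtain ⟨R, h1, h2, _⟩ := key i' z' hz'
    have hh : ∀ k l, conj (LM (B.wt i') z' k l) = LM (B.wt i') z' l k := fun k l =>
      LM_conj (A.c i').open_target (B.smooth i') hz'.1 k l
    refine ⟨R, h1, h2, ?_⟩
    rw [P_eq B hS ((A.c i').map_target hz'.1), (A.c i').right_inv hz'.1, hv,
      LM_ext hs hol (contDiff_cut c) hN hz',
      QQ_five hh ((L i').iso z' hz'.1) (fun j => key0' hμ hsp hq hs hol hz'.1 j), h1,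
      ← Complex.ofReal_mul, Complex.ofReal_re]
  have hpos : ∀ x, 0 ≤ P B v x := by
    intro x
    by_cases hx : x ∈ Off A s
    · have hx' : A.c (ix A x) x ∈ Ou A s (ix A x) :=
        ⟨(A.c _).map_source (mem_ix A x), by rw [(A.c _).left_inv (mem_ix A x)]; exact hx⟩
      obtain ⟨R, _, h2, h3⟩ := hval (ix A x) _ hx'
      rw [(A.c _).left_inv (mem_ix A x)] at h3
      rw [h3]
      exact mul_nonneg (cut_nonneg _ _) h2
    · rw [P_zero_near B (ext_near hs (fun y hy => cut_zero hy) fun h => absurd h hx)]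
  have hzero := zero_of_integral hμ (continuous_P B hS) hpos (int_P hμ B hS) ((A.c i).symm z)
  obtain ⟨R, h1, _, h3⟩ := hval i z hz
  obtain ⟨R', h1', _, h4⟩ := key i z hz
  have hRR : R = R' := by
    have := h1.symm.trans h1'
    exact_mod_cast this
  rw [h3] at hzero
  have hcut : 0 < cut c (lp (m' : ℝ) (B.wt i) (st A s i) z) := by
    apply cut_pos
    rw [hc, psi_chart hs hz.1]
    linarith
  have hR0 : R' = 0 := by
    rw [← hRR]
    exact (mul_eq_zero.1 hzero).resolve_left hcut.ne'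
  have h5 := h4 hR0 b cs
  rw [Complex.ofReal_intCast] at h5
  exact h5

end Pool.Agent.BOC
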